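import Mathlib

/-!
# The algebraic core of the fractional theorem
-/

set_option autoImplicit false

namespace Pool.Agent.Y361.WHS

open Finset

/-- sum of a function of `min i k` -/
theorem sum_min {r k : ℕ} (hk : k ≤ r) (g : ℕ → ℝ) :
    ∑ i ∈ range r, g (min i k) = ∑ i ∈ range k, g i + ((r : ℝ) - k) * g k := by
  obtain ⟨m, rfl⟩ := Nat.exists_eq_add_of_le hk
  rw [Finset.sum_range_add]
  congr 1
  · refine Finset.sum_congr rfl fun i hi => ?_
    rw [Finset.mem_range] at hi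
    rw [min_eq_left hi.le]
  · have : ∀ i ∈ range m, g (min (k + i) k) = g k := by
      intro i _
      rw [min_eq_right (Nat.le_add_right k i)]
    rw [Finset.sum_congr rfl this, Finset.sum_const, Finset.card_range, nsmul_eq_mul]
    push_cast
    ring

/-- the expected cost of a tuple of type `k` -/
noncomputable def avg (A : ℕ → ℕ → ℝ) (r k : ℕ) : ℝ :=
  ∑ i ∈ range r, ∑ j ∈ range r, if i = j then 0 else A (min i k) (min j k)

/-- sum over unequal pairs below `k` -/
noncomputable def TT (A : ℕ → ℕ → ℝ) (k : ℕ) : ℝ :=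
  ∑ i ∈ range k, ∑ j ∈ range k, A i j - ∑ i ∈ range k, A i i

theorem TT_zero (A : ℕ → ℕ → ℝ) : TT A 0 = 0 := by simp [TT]

theorem TT_succ {A : ℕ → ℕ → ℝ} (hs : ∀ i j, A i j = A j i) (k : ℕ) :
    TT A (k + 1) = TT A k + 2 * ∑ i ∈ range k, A i k := by
  unfold TT
  rw [Finset.sum_range_succ (fun i => A i i)]
  rw [Finset.sum_range_succ (fun i => ∑ j ∈ range (k + 1), A i j)]
  rw [Finset.sum_range_succ (fun j => A k j)]
  have e : ∑ i ∈ range k, ∑ j ∈ range (k + 1), A i j =
      ∑ i ∈ range k, ∑ j ∈ range k, A i j + ∑ i ∈ range k, A i k := by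
    rw [← Finset.sum_add_distrib]
    exact Finset.sum_congr rfl fun i _ => Finset.sum_range_succ _ _
  have e2 : ∑ j ∈ range k, A k j = ∑ i ∈ range k, A i k :=
    Finset.sum_congr rfl fun i _ => hs _ _
  rw [e, e2]
  ring

theorem avg_eq {A : ℕ → ℕ → ℝ} (hs : ∀ i j, A i j = A j i) {r k : ℕ} (hk : k ≤ r) :
    avg A r k = TT A k + 2 * ((r : ℝ) - k) * ∑ i ∈ range k, A i k +
      ((r : ℝ) - k) * ((r : ℝ) - k - 1) * A k k := by
  have h1 : avg A r k = ∑ i ∈ range r, ∑ j ∈ range r, A (min i k) (min j k) -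
      ∑ i ∈ range r, A (min i k) (min i k) := by
    unfold avg
    rw [← Finset.sum_sub_distrib]
    refine Finset.sum_congr rfl fun i hi => ?_
    have : ∀ j ∈ range r, (if i = j then (0 : ℝ) else A (min i k) (min j k)) =
        A (min i k) (min j k) - (if i = j then A (min i k) (min j k) else 0) := by
      intro j _
      split_ifs <;> ring
    rw [Finset.sum_congr rfl this, Finset.sum_sub_distrib, Finset.sum_ite_eq, if_pos hi]
  have h2 : ∑ i ∈ range r, ∑ j ∈ range r, A (min i k) (min j k) =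
      ∑ i ∈ range k, ∑ j ∈ range k, A i j + 2 * ((r : ℝ) - k) * ∑ i ∈ range k, A i k +
        ((r : ℝ) - k) ^ 2 * A k k := by
    have h3 : ∀ i, ∑ j ∈ range r, A (min i k) (min j k) =
        ∑ j ∈ range k, A (min i k) j + ((r : ℝ) - k) * A (min i k) k :=
      fun i => sum_min hk (fun j => A (min i k) j)
    simp only [h3]
    rw [sum_min hk (fun i => ∑ j ∈ range k, A i j + ((r : ℝ) - k) * A i k)]
    rw [Finset.sum_add_distrib, ← Finset.mul_sum]
    have e2 : ∑ j ∈ range k, A k j = ∑ i ∈ range k, A i k :=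
      Finset.sum_congr rfl fun i _ => hs _ _
    rw [e2]
    ring
  rw [h1, h2, sum_min hk (fun i => A i i)]
  unfold TT
  ring

/-- the telescoping identity -/
theorem telesc {A : ℕ → ℕ → ℝ} (hs : ∀ i j, A i j = A j i) {r : ℕ} (m : ℕ) (hm : m < r) :
    ∑ k ∈ range m, avg A r k / (((r : ℝ) - k - 1) * ((r : ℝ) - k)) =
      TT A m / ((r : ℝ) - m) + ∑ k ∈ range m, A k k := by
  induction m with
  | zero => simp [TT_zero]
  | succ m ih =>
    rw [Finset.sum_range_succ, ih (by omega), Finset.sum_range_succ, TT_succ hs,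
      avg_eq hs (by omega : m ≤ r)]
    have h1 : (0 : ℝ) < (r : ℝ) - m - 1 := by
      have : (m : ℝ) + 1 < r := by exact_mod_cast hm
      linarith
    have h2 : (0 : ℝ) < (r : ℝ) - m := by linarith
    push_cast
    have e1 : (r : ℝ) - (m + 1) = (r : ℝ) - m - 1 := by ring
    rw [e1]
    field_simp
    ring

theorem telesc_one {r : ℕ} (m : ℕ) (hm : m < r) :
    ∑ k ∈ range m, 1 / (((r : ℝ) - k - 1) * ((r : ℝ) - k)) =
      1 / ((r : ℝ) - m) - 1 / (r : ℝ) := by
  induction m with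
  | zero => simp
  | succ m ih =>
    rw [Finset.sum_range_succ, ih (by omega)]
    have h1 : (0 : ℝ) < (r : ℝ) - m - 1 := by
      have : (m : ℝ) + 1 < r := by exact_mod_cast hm
      linarith
    have h2 : (0 : ℝ) < (r : ℝ) - m := by linarith
    push_cast
    have e1 : (r : ℝ) - (m + 1) = (r : ℝ) - m - 1 := by ring
    rw [e1]
    field_simp
    ring

/-- some type has small expected cost -/
theorem alg {A : ℕ → ℕ → ℝ} (hs : ∀ i j, A i j = A j i) (h0 : ∀ i j, 0 ≤ A i j) {r : ℕ}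
    (hr : 2 ≤ r) {σ R : ℝ} (hσ0 : 0 ≤ σ) (hσ1 : σ < 1)
    (hrow : ∀ i, i < r - 1 →
      ∑ j ∈ range (r - 1), A i j - σ * A i 0 + 2 * σ * A i (r - 1) ≤ R) :
    ∃ k, k < r ∧ (k = r - 1 → 0 < σ) ∧ avg A r k ≤ r * R := by
  by_contra hcon
  push Not at hcon
  obtain ⟨m, rfl⟩ : ∃ m, r = m + 1 := ⟨r - 1, by omega⟩
  have hm : 1 ≤ m := by omega
  have em : m + 1 - 1 = m := by omega
  rw [em] at hrow
  set r : ℕ := m + 1 with hr_def
  have hrR : (r : ℝ) = m + 1 := by rw [hr_def]; push_cast; ring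
  have hmR : (1 : ℝ) ≤ m := by exact_mod_cast hm
  -- lower bound
  have hlow : (r * R) * (1 / ((r : ℝ) - m) - 1 / (r : ℝ)) <
      TT A m / ((r : ℝ) - m) + ∑ k ∈ range m, A k k := by
    rw [← telesc hs m (by omega), ← telesc_one m (by omega), Finset.mul_sum]
    refine Finset.sum_lt_sum_of_nonempty ⟨0, Finset.mem_range.2 (by omega)⟩ fun k hk => ?_
    rw [Finset.mem_range] at hk
    have h1 : (0 : ℝ) < (r : ℝ) - k - 1 := by
      have : (k : ℝ) + 1 ≤ m := by exact_mod_cast hk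
      rw [hrR]; linarith
    have h2 : (0 : ℝ) < (r : ℝ) - k := by linarith
    have h3 : (r : ℝ) * R < avg A r k := hcon k (by omega) (fun h => absurd h (by omega))
    rw [mul_one_div]
    exact div_lt_div_of_pos_right h3 (mul_pos h1 h2)
  have e1 : (r : ℝ) - m = 1 := by rw [hrR]; ring
  rw [e1, div_one, div_one] at hlow
  have e2 : (r : ℝ) * R * (1 - 1 / (r : ℝ)) = R * m := by
    have : (r : ℝ) ≠ 0 := by rw [hrR]; positivity
    field_simp
    rw [hrR]; ring
  rw [e2] at hlow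
  have havg : avg A r m = TT A m + 2 * ∑ i ∈ range m, A i m := by
    rw [avg_eq hs (by omega : m ≤ r), e1]
    ring
  have hlast : σ * (r * R) ≤ σ * (TT A m + 2 * ∑ i ∈ range m, A i m) := by
    rcases hσ0.eq_or_lt with h | h
    · rw [← h]; simp
    · have h3 := hcon m (by omega) (fun _ => h)
      rw [havg] at h3
      exact mul_le_mul_of_nonneg_left h3.le hσ0
  -- upper bound
  have hup : ∑ i ∈ range m, (∑ j ∈ range m, A i j - σ * A i 0 + 2 * σ * A i m) +
      σ * (∑ j ∈ range m, A 0 j - σ * A 0 0 + 2 * σ * A 0 m) ≤ m * R + σ * R := by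
    refine add_le_add ?_ (mul_le_mul_of_nonneg_left (hrow 0 (by omega)) hσ0)
    calc ∑ i ∈ range m, (∑ j ∈ range m, A i j - σ * A i 0 + 2 * σ * A i m)
        ≤ ∑ _i ∈ range m, R := Finset.sum_le_sum fun i hi => hrow i (Finset.mem_range.1 hi)
      _ = m * R := by rw [Finset.sum_const, Finset.card_range, nsmul_eq_mul]
  have e3 : ∑ i ∈ range m, (∑ j ∈ range m, A i j - σ * A i 0 + 2 * σ * A i m) =
      ∑ i ∈ range m, ∑ j ∈ range m, A i j - σ * ∑ i ∈ range m, A i 0 +
        2 * σ * ∑ i ∈ range m, A i m := by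
    rw [Finset.sum_add_distrib, Finset.sum_sub_distrib, ← Finset.mul_sum, ← Finset.mul_sum]
  have e4 : ∑ j ∈ range m, A 0 j = ∑ i ∈ range m, A i 0 :=
    Finset.sum_congr rfl fun i _ => hs _ _
  have e5 : A 0 0 ≤ ∑ k ∈ range m, A k k :=
    Finset.single_le_sum (f := fun k => A k k) (fun k _ => h0 k k) (Finset.mem_range.2 (by omega))
  have hT : TT A m + ∑ k ∈ range m, A k k = ∑ i ∈ range m, ∑ j ∈ range m, A i j := by
    unfold TT; ring
  rw [e3, e4] at hup
  have h5 : 0 ≤ σ * (∑ k ∈ range m, A k k - σ * A 0 0) := by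
    apply mul_nonneg hσ0
    nlinarith [h0 0 0]
  have h6 : 0 ≤ σ * (σ * A 0 m) := mul_nonneg hσ0 (mul_nonneg hσ0 (h0 _ _))
  have h7 : (1 - σ) * (R * m) < (1 - σ) * (TT A m + ∑ k ∈ range m, A k k) :=
    mul_lt_mul_of_pos_left hlow (by linarith)
  have h8 : σ * (r * R) = σ * ((m + 1) * R) := by rw [hrR]
  rw [h8] at hlast
  nlinarith

end Pool.Agent.Y361.WHS
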