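import Pool.Agent.Y361.WHS.Frac

/-!
# Every two vertices have many common links
-/

set_option autoImplicit false
set_option linter.unusedSectionVars false

namespace Pool.Agent.Y361.WHS

open Finset

/-- the numerical inequality -/
theorem alpha_exists {M : ℝ} (hM : M = 1 ∨ M = 2 ∨ 3 ≤ M) {Δ : ℝ} (hΔ : Δ = M / (M + 1)) :
    ∃ α : ℝ, 0 < α ∧ (M - 1) * α * Δ ≤ 1 / 2 ∧ ∀ H : ℝ, 4 * Δ ^ 2 ≤ H →
      (1 + 2 * α * Δ) * H - α * H ^ 2 / (2 * Δ) ≤
        M + 2 * M * α * (1 - α * (M - 1) * Δ) * (H - 4 * Δ ^ 2) := by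
  rcases hM with rfl | rfl | hM
  · refine ⟨1, one_pos, by norm_num, fun H hH => ?_⟩
    subst hΔ
    norm_num at hH ⊢
    nlinarith
  · refine ⟨3 / 4, by norm_num, by rw [hΔ]; norm_num, fun H hH => ?_⟩
    subst hΔ
    norm_num at hH ⊢
    nlinarith
  · have h1 : 0 < M - 1 := by linarith
    have h2 : 0 < M + 1 := by linarith
    have h0 : 0 < M := by linarith
    refine ⟨(M + 1) / (2 * (M - 1) * M), by positivity, ?_, fun H _ => ?_⟩
    · rw [hΔ]
      apply le_of_eq
      field_simp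
    · have e1 : 2 * ((M + 1) / (2 * (M - 1) * M)) * Δ = 1 / (M - 1) := by
        rw [hΔ]; field_simp
      have e2 : (M + 1) / (2 * (M - 1) * M) * (M - 1) * Δ = 1 / 2 := by
        rw [hΔ]; field_simp
      have e3 : (M + 1) / (2 * (M - 1) * M) * H ^ 2 / (2 * Δ) =
          (M + 1) ^ 2 / (4 * M ^ 2) * H ^ 2 / (M - 1) := by
        rw [hΔ]; field_simp; ring
      have e4 : 2 * M * ((M + 1) / (2 * (M - 1) * M)) * (1 - 1 / 2) * (H - 4 * Δ ^ 2) =
          ((M + 1) / 2 * H - 2 * M ^ 2 / (M + 1)) / (M - 1) := by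
        rw [hΔ]; field_simp; ring
      rw [e1, e2, e3, e4]
      have key : M * H - (M + 1) ^ 2 / (4 * M ^ 2) * H ^ 2 ≤
          M * (M - 1) + ((M + 1) / 2 * H - 2 * M ^ 2 / (M + 1)) := by
        set z : ℝ := (M + 1) / (2 * M) * H with hz
        have hH : H = 2 * M / (M + 1) * z := by rw [hz]; field_simp
        have k1 : (M + 1) ^ 2 / (4 * M ^ 2) * H ^ 2 = z ^ 2 := by rw [hz]; field_simp; ring
        have k2 : M * H - (M + 1) / 2 * H = M * (M - 1) / (M + 1) * z := by
          rw [hz]; field_simp; ring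
        have k3 : M * (M - 1) / (M + 1) * z - z ^ 2 ≤ (M * (M - 1) / (2 * (M + 1))) ^ 2 := by
          have : M * (M - 1) / (M + 1) = 2 * (M * (M - 1) / (2 * (M + 1))) := by field_simp
          rw [this]
          nlinarith [sq_nonneg (M * (M - 1) / (2 * (M + 1)) - z)]
        have k4 : (M * (M - 1) / (2 * (M + 1))) ^ 2 ≤ M * (M - 1) - 2 * M ^ 2 / (M + 1) := by
          have k5 : M * (M - 1) - 2 * M ^ 2 / (M + 1) - (M * (M - 1) / (2 * (M + 1))) ^ 2 =
              M * (4 * (M + 1) * (M ^ 2 - 2 * M - 1) - M * (M - 1) ^ 2) / (4 * (M + 1) ^ 2) := by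
            field_simp
            ring
          have k6 : 0 ≤ 4 * (M + 1) * (M ^ 2 - 2 * M - 1) - M * (M - 1) ^ 2 := by
            nlinarith [mul_nonneg (sub_nonneg.2 hM) (sub_nonneg.2 hM),
              mul_nonneg (mul_nonneg (sub_nonneg.2 hM) (sub_nonneg.2 hM)) (sub_nonneg.2 hM)]
          have k7 : 0 ≤ M * (4 * (M + 1) * (M ^ 2 - 2 * M - 1) - M * (M - 1) ^ 2) /
              (4 * (M + 1) ^ 2) := by positivity
          linarith
        linarith
      have e5 : (1 + 1 / (M - 1)) * H - (M + 1) ^ 2 / (4 * M ^ 2) * H ^ 2 / (M - 1) =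
          (M * H - (M + 1) ^ 2 / (4 * M ^ 2) * H ^ 2) / (M - 1) := by
        field_simp
        ring
      have e6 : M + ((M + 1) / 2 * H - 2 * M ^ 2 / (M + 1)) / (M - 1) =
          (M * (M - 1) + ((M + 1) / 2 * H - 2 * M ^ 2 / (M + 1))) / (M - 1) := by
        field_simp
      rw [e5, e6]
      exact div_le_div_of_nonneg_right key h1.le

section Av
variable {V : Type} [Fintype V] [Nonempty V]

/-- the average -/
noncomputable def av (φ : V → ℝ) : ℝ := (∑ v, φ v) / (Fintype.card V : ℝ)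

theorem cardpos : (0 : ℝ) < (Fintype.card V : ℝ) := by exact_mod_cast Fintype.card_pos

theorem av_add (φ ψ : V → ℝ) : av (fun v => φ v + ψ v) = av φ + av ψ := by
  unfold av; rw [Finset.sum_add_distrib, add_div]

theorem av_sub (φ ψ : V → ℝ) : av (fun v => φ v - ψ v) = av φ - av ψ := by
  unfold av; rw [Finset.sum_sub_distrib, sub_div]

theorem av_mul (c : ℝ) (φ : V → ℝ) : av (fun v => c * φ v) = c * av φ := by
  unfold av; rw [← Finset.mul_sum, mul_div_assoc]

theorem av_const (c : ℝ) : av (fun _ : V => c) = c := by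
  unfold av
  rw [Finset.sum_const, Finset.card_univ, nsmul_eq_mul]
  have := (cardpos (V := V)).ne'
  field_simp

theorem av_mono {φ ψ : V → ℝ} (h : ∀ v, φ v ≤ ψ v) : av φ ≤ av ψ :=
  div_le_div_of_nonneg_right (Finset.sum_le_sum fun v _ => h v) cardpos.le

theorem av_nonneg {φ : V → ℝ} (h : ∀ v, 0 ≤ φ v) : 0 ≤ av φ :=
  div_nonneg (Finset.sum_nonneg fun v _ => h v) cardpos.le

theorem av_cs (a b : V → ℝ) (ha : ∀ v, 0 ≤ a v) (_hb : ∀ v, 0 ≤ b v) :
    av (fun v => b v * a v) ^ 2 ≤ av a * av (fun v => b v ^ 2 * a v) := by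
  unfold av
  rw [div_pow, div_mul_div_comm, sq (Fintype.card V : ℝ)]
  apply div_le_div_of_nonneg_right _ (mul_pos cardpos cardpos).le
  have h := Finset.sum_sq_le_sum_mul_sum_of_sq_le_mul (univ : Finset V) (f := a)
    (g := fun v => b v ^ 2 * a v) (r := fun v => b v * a v) (fun v _ => ha v)
    (fun v _ => mul_nonneg (sq_nonneg _) (ha v)) (fun v _ => le_of_eq (by ring))
  exact h

/-- the cut-off -/
theorem cut {α Δ : ℝ} (hα : 0 < α) (s0 : V → ℝ) (hs0 : ∀ v, 0 ≤ s0 v) (hs1 : av s0 ≤ 2 * Δ) :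
    ∃ L : ℝ, 0 ≤ L ∧ α * av (fun v => max (L - s0 v) 0) = 1 := by
  have hcont : Continuous (fun L : ℝ => av (fun v => max (L - s0 v) 0)) := by
    unfold av
    fun_prop
  have h0 : av (fun v => max ((0 : ℝ) - s0 v) 0) = 0 := by
    have : (fun v => max ((0 : ℝ) - s0 v) 0) = fun _ => (0 : ℝ) := by
      funext v
      exact max_eq_right (by linarith [hs0 v])
    rw [this, av_const]
  have h1 : 1 / α ≤ av (fun v => max ((1 / α + 2 * Δ) - s0 v) 0) := by
    calc 1 / α ≤ av (fun v => (1 / α + 2 * Δ) - s0 v) := by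
          rw [av_sub, av_const]; linarith
      _ ≤ _ := av_mono fun v => le_max_left _ _
  have hΔ : 0 ≤ 2 * Δ := (av_nonneg hs0).trans hs1
  have h2 : (0 : ℝ) ≤ 1 / α + 2 * Δ := by positivity
  obtain ⟨L, hL, hL2⟩ := intermediate_value_Icc h2 hcont.continuousOn
    (show (1 / α) ∈ Set.Icc (av (fun v => max ((0 : ℝ) - s0 v) 0))
      (av (fun v => max ((1 / α + 2 * Δ) - s0 v) 0)) from ⟨by rw [h0]; positivity, h1⟩)
  refine ⟨L, hL.1, ?_⟩
  simp only at hL2
  rw [hL2]
  field_simp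

/-- the modified functions -/
theorem modify {α Δ : ℝ} (hα : 0 < α) (f0 g0 : V → ℝ) (hf0 : ∀ v, 0 ≤ f0 v) (hg0 : ∀ v, 0 ≤ g0 v)
    (hf1 : av f0 ≤ Δ) (hg1 : av g0 ≤ Δ) :
    ∃ f g ρ : V → ℝ, (∀ v, 0 ≤ f v) ∧ (∀ v, 0 ≤ g v) ∧ av f = Δ ∧ av g = Δ ∧
      (∀ v, 0 ≤ ρ v) ∧ (∀ v, ρ v = 1 - α * (f v + g v - 2 * Δ)) ∧
      (∀ v, ρ v ≠ 0 → f0 v ≤ f v ∧ g0 v ≤ g v) := by
  set s0 : V → ℝ := fun v => f0 v + g0 v with hs0
  have hs0n : ∀ v, 0 ≤ s0 v := fun v => add_nonneg (hf0 v) (hg0 v)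
  have hs01 : av s0 ≤ 2 * Δ := by rw [hs0, av_add]; linarith
  obtain ⟨L, hL0, hL⟩ := cut hα s0 hs0n hs01
  set c : V → ℝ := fun v => if s0 v ≤ L then 1 else L / s0 v with hc
  have hc0 : ∀ v, 0 ≤ c v := by
    intro v
    simp only [hc]
    split_ifs
    · exact zero_le_one
    · exact div_nonneg hL0 (hs0n v)
  have hc1 : ∀ v, c v ≤ 1 := by
    intro v
    simp only [hc]
    split_ifs with h
    · exact le_rfl
    · push Not at h
      have : 0 < s0 v := lt_of_le_of_lt hL0 h
      rw [div_le_one this]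
      exact h.le
  have hcs : ∀ v, L - s0 v * c v = max (L - s0 v) 0 := by
    intro v
    simp only [hc]
    split_ifs with h
    · rw [mul_one, max_eq_left (by linarith)]
    · push Not at h
      have : 0 < s0 v := lt_of_le_of_lt hL0 h
      rw [max_eq_right (by linarith)]
      field_simp
      ring
  set af : ℝ := Δ - av (fun v => f0 v * c v) with haf
  set ag : ℝ := Δ - av (fun v => g0 v * c v) with hag
  have haf0 : 0 ≤ af := by
    have : av (fun v => f0 v * c v) ≤ av f0 := av_mono fun v => by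
      have := mul_le_mul_of_nonneg_left (hc1 v) (hf0 v)
      linarith
    linarith
  have hag0 : 0 ≤ ag := by
    have : av (fun v => g0 v * c v) ≤ av g0 := av_mono fun v => by
      have := mul_le_mul_of_nonneg_left (hc1 v) (hg0 v)
      linarith
    linarith
  have hsum : av (fun v => s0 v * c v) = av (fun v => f0 v * c v) + av (fun v => g0 v * c v) := by
    rw [← av_add]
    congr 1
    funext v
    simp only [hs0]
    ring
  have hL2 : α * (L - av (fun v => s0 v * c v)) = 1 := by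
    rw [← hL]
    congr 1
    rw [← av_const (V := V) L, ← av_sub]
    congr 1
    funext v
    rw [av_const]
    exact hcs v
  refine ⟨fun v => f0 v * c v + af, fun v => g0 v * c v + ag, fun v => α * max (L - s0 v) 0,
    fun v => add_nonneg (mul_nonneg (hf0 v) (hc0 v)) haf0,
    fun v => add_nonneg (mul_nonneg (hg0 v) (hc0 v)) hag0, ?_, ?_,
    fun v => mul_nonneg hα.le (le_max_right _ _), ?_, ?_⟩
  · rw [av_add, av_const]; linarith
  · rw [av_add, av_const]; linarith
  · intro v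
    have h1 := hcs v
    have h2 : f0 v * c v + af + (g0 v * c v + ag) - 2 * Δ =
        s0 v * c v - av (fun v => s0 v * c v) := by
      rw [hsum, haf, hag]
      simp only [hs0]
      ring
    simp only
    rw [h2, ← h1]
    linarith
  · intro v hv
    have h1 : c v = 1 := by
      simp only [hc]
      rw [if_pos]
      by_contra h
      apply hv
      push Not at h
      simp only
      rw [max_eq_right (by linarith), mul_zero]
    simp only
    rw [h1]
    constructor <;> linarith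

end Av

end Pool.Agent.Y361.WHS
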