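import Pool.Agent.Y361.WHS.Close

/-!
# Every two vertices have many common links (the expected cost)
-/

set_option autoImplicit false
set_option linter.unusedSectionVars false

namespace Pool.Agent.Y361.WHS

open Finset

theorem b2_lem {M α Δ X Y H S3 : ℝ} (hα : 0 < α) (hΔ0 : 0 < Δ) (hα2 : (M - 1) * α * Δ ≤ 1 / 2)
    (hXY : X + Y = H) (hS3c : X ^ 2 + Y ^ 2 ≤ Δ * S3) :
    (M - 1) * (-(α * (X - Y))) ^ 2 - α * S3 ≤ - (α * H ^ 2 / (2 * Δ)) := by
  have c1 : (X ^ 2 + Y ^ 2) / Δ ≤ S3 := by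
    rw [div_le_iff₀ hΔ0]; linarith
  have c2 : (M - 1) * (-(α * (X - Y))) ^ 2 ≤ α * (X - Y) ^ 2 / (2 * Δ) := by
    rw [le_div_iff₀ (by positivity)]
    have c3 : (M - 1) * (-(α * (X - Y))) ^ 2 * (2 * Δ) =
        (2 * ((M - 1) * α * Δ)) * (α * (X - Y) ^ 2) := by ring
    rw [c3]
    have c4 : 0 ≤ α * (X - Y) ^ 2 := by positivity
    nlinarith
  have c5 : α * (X - Y) ^ 2 / (2 * Δ) - α * ((X ^ 2 + Y ^ 2) / Δ) = - (α * H ^ 2 / (2 * Δ)) := by
    rw [← hXY]
    field_simp
    ring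
  have c6 := mul_le_mul_of_nonneg_left c1 hα.le
  linarith

theorem final_arith {M α Δ W H S3 Q2 D2 Z : ℝ} (hM : 1 ≤ M)
    (b1 : M * (M - 1) * D2 ≤ M * (M - 1) * (Δ * (1 + α ^ 2 * W)))
    (a3 : Q2 ≤ (1 + 2 * α * Δ) * H - α * S3)
    (b2 : (M - 1) * Z ^ 2 - α * S3 ≤ - (α * H ^ 2 / (2 * Δ)))
    (hst : (1 + 2 * α * Δ) * H - α * H ^ 2 / (2 * Δ) ≤
      M + 2 * M * α * (1 - α * (M - 1) * Δ) * W) (hΔm : (M + 1) * Δ = M) :
    M * (M - 1) * D2 + M * (2 * Δ - α * W) +
      1 / (2 * M) * (M * Q2 + M * (M - 1) * Z ^ 2) + M / 2 * 1 ≤ M * (M + 1) := by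
  have hM0 : 0 < M := by linarith
  have e5 : 1 / (2 * M) * (M * Q2 + M * (M - 1) * Z ^ 2) = (Q2 + (M - 1) * Z ^ 2) / 2 := by
    field_simp
  rw [e5]
  have e8 : M * (M - 1) * (Δ * (1 + α ^ 2 * W)) + M * (2 * Δ - α * W) +
      (M + 2 * M * α * (1 - α * (M - 1) * Δ) * W) / 2 + M / 2 * 1 = M * (M + 1) := by
    linear_combination M * hΔm
  linarith

section
variable {V : Type} [Fintype V] [Nonempty V] [DecidableEq V]

theorem m_cases {m : ℕ} (hm : 1 ≤ m) : (m : ℝ) = 1 ∨ (m : ℝ) = 2 ∨ 3 ≤ (m : ℝ) := by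
  rcases (by omega : m = 1 ∨ m = 2 ∨ 3 ≤ m) with h | h | h
  · left; rw [h]; norm_num
  · right; left; rw [h]; norm_num
  · right; right; exact_mod_cast h

/-- pair expectation for a density -/
theorem pair_bound {d : V → V → ℝ} {Δ : ℝ} (hd : Dfc d Δ) (ρ : V → ℝ) :
    ∑ u, ∑ v, (ρ u / Fintype.card V) * (ρ v / Fintype.card V) * d u v ≤
      Δ * av (fun v => ρ v ^ 2) := by
  have hN := cardpos (V := V)
  have h1 : ∀ u v, (ρ u / Fintype.card V) * (ρ v / Fintype.card V) * d u v ≤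
      (ρ u / Fintype.card V) ^ 2 / 2 * d u v + (ρ v / Fintype.card V) ^ 2 / 2 * d u v := by
    intro u v
    have h2 := hd.nonneg u v
    have h3 : (ρ u / Fintype.card V) * (ρ v / Fintype.card V) ≤
        (ρ u / Fintype.card V) ^ 2 / 2 + (ρ v / Fintype.card V) ^ 2 / 2 := by
      nlinarith [sq_nonneg (ρ u / Fintype.card V - ρ v / Fintype.card V)]
    rw [← add_mul]
    exact mul_le_mul_of_nonneg_right h3 h2
  have h4 : ∑ u, ∑ v, (ρ u / (Fintype.card V : ℝ)) ^ 2 / 2 * d u v ≤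
      ∑ u, (ρ u / (Fintype.card V : ℝ)) ^ 2 / 2 * (Δ * Fintype.card V) := by
    refine Finset.sum_le_sum fun u _ => ?_
    rw [← Finset.mul_sum]
    exact mul_le_mul_of_nonneg_left (hd.deg u) (by positivity)
  have h5 : ∑ u, ∑ v, (ρ v / (Fintype.card V : ℝ)) ^ 2 / 2 * d u v ≤
      ∑ u, (ρ u / (Fintype.card V : ℝ)) ^ 2 / 2 * (Δ * Fintype.card V) := by
    rw [Finset.sum_comm]
    refine Finset.sum_le_sum fun u _ => ?_
    rw [← Finset.mul_sum]
    refine mul_le_mul_of_nonneg_left ?_ (by positivity)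
    refine le_trans (le_of_eq ?_) (hd.deg u)
    exact Finset.sum_congr rfl fun v _ => hd.symm _ _
  have h6 : ∑ u, (ρ u / (Fintype.card V : ℝ)) ^ 2 / 2 * (Δ * Fintype.card V) +
      ∑ u, (ρ u / (Fintype.card V : ℝ)) ^ 2 / 2 * (Δ * Fintype.card V) =
      Δ * av (fun v => ρ v ^ 2) := by
    unfold av
    rw [← Finset.sum_add_distrib, Finset.sum_div, Finset.mul_sum]
    refine Finset.sum_congr rfl fun u _ => ?_
    field_simp
    ring
  calc ∑ u, ∑ v, (ρ u / (Fintype.card V : ℝ)) * (ρ v / Fintype.card V) * d u v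
      ≤ ∑ u, ∑ v, ((ρ u / (Fintype.card V : ℝ)) ^ 2 / 2 * d u v +
        (ρ v / (Fintype.card V : ℝ)) ^ 2 / 2 * d u v) :=
        Finset.sum_le_sum fun u _ => Finset.sum_le_sum fun v _ => h1 u v
    _ = ∑ u, ∑ v, (ρ u / (Fintype.card V : ℝ)) ^ 2 / 2 * d u v +
        ∑ u, ∑ v, (ρ v / (Fintype.card V : ℝ)) ^ 2 / 2 * d u v := by
        rw [← Finset.sum_add_distrib]
        exact Finset.sum_congr rfl fun u _ => Finset.sum_add_distrib
    _ ≤ _ := by rw [← h6]; exact add_le_add h4 h5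

/-- the expectation of a pair sum for identical weights -/
theorem sum_pairs_same {m : ℕ} {p : V → ℝ} (hp : ∑ v, p v = 1) (g : V → V → ℝ)
    (hg : ∀ v, g v v = 0) :
    ∑ T : Fin m → V, PWt (fun _ => p) T * ∑ i, ∑ j, g (T i) (T j) =
      m * (m - 1) * ∑ u, ∑ v, p u * p v * g u v := by
  rw [sum_pairs (fun _ => hp) g hg]
  have h1 : ∀ i : Fin m, ∑ j : Fin m, (if i = j then (0 : ℝ) else
      ∑ u, ∑ v, p u * p v * g u v) = (m - 1) * ∑ u, ∑ v, p u * p v * g u v := by
    intro i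
    have h2 : ∀ j : Fin m, (if i = j then (0 : ℝ) else ∑ u, ∑ v, p u * p v * g u v) =
        (∑ u, ∑ v, p u * p v * g u v) -
          (if i = j then (∑ u, ∑ v, p u * p v * g u v) else 0) := by
      intro j
      split_ifs <;> ring
    simp only [h2]
    rw [Finset.sum_sub_distrib, Finset.sum_ite_eq, if_pos (mem_univ _), Finset.sum_const,
      Finset.card_univ, Fintype.card_fin, nsmul_eq_mul]
    ring
  simp only [h1]
  rw [Finset.sum_const, Finset.card_univ, Fintype.card_fin, nsmul_eq_mul]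
  ring

/-- second moment -/
theorem sum_sq_same {m : ℕ} {p : V → ℝ} (hp : ∑ v, p v = 1) (h : V → ℝ) :
    ∑ T : Fin m → V, PWt (fun _ => p) T * (∑ i, h (T i)) ^ 2 =
      m * ∑ v, p v * h v ^ 2 + m * (m - 1) * (∑ v, p v * h v) ^ 2 := by
  have e : ∀ T : Fin m → V, PWt (fun _ => p) T * (∑ i, h (T i)) ^ 2 =
      ∑ i, ∑ j, PWt (fun _ => p) T * (h (T i) * h (T j)) := by
    intro T
    rw [sq, Finset.sum_mul_sum, Finset.mul_sum]
    refine Finset.sum_congr rfl fun i _ => ?_
    rw [Finset.mul_sum]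
  simp only [e]
  rw [Finset.sum_comm]
  have h1 : ∀ i : Fin m, ∑ T : Fin m → V, ∑ j, PWt (fun _ => p) T * (h (T i) * h (T j)) =
      ∑ v, p v * h v ^ 2 + (m - 1) * (∑ v, p v * h v) ^ 2 := by
    intro i
    rw [Finset.sum_comm]
    have h2 : ∀ j : Fin m, ∑ T : Fin m → V, PWt (fun _ => p) T * (h (T i) * h (T j)) =
        (∑ v, p v * h v) ^ 2 +
          (if i = j then (∑ v, p v * h v ^ 2 - (∑ v, p v * h v) ^ 2) else 0) := by
      intro j
      by_cases hij : i = j
      · subst hij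
        rw [if_pos rfl]
        have := sum_one (p := fun _ : Fin m => p) (fun _ => hp) i (fun v => h v * h v)
        rw [this]
        have h3 : ∑ v, p v * (h v * h v) = ∑ v, p v * h v ^ 2 :=
          Finset.sum_congr rfl fun v _ => by ring
        rw [h3]
        ring
      · rw [if_neg hij, sum_two (p := fun _ : Fin m => p) (fun _ => hp) hij (fun u v => h u * h v)]
        rw [add_zero, sq, Finset.sum_mul_sum]
        exact Finset.sum_congr rfl fun u _ => Finset.sum_congr rfl fun v _ => by ring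
    simp only [h2]
    rw [Finset.sum_add_distrib, Finset.sum_ite_eq, if_pos (mem_univ _), Finset.sum_const,
      Finset.card_univ, Fintype.card_fin, nsmul_eq_mul]
    ring
  simp only [h1]
  rw [Finset.sum_const, Finset.card_univ, Fintype.card_fin, nsmul_eq_mul]
  ring

/-- first moment -/
theorem sum_lin_same {m : ℕ} {p : V → ℝ} (hp : ∑ v, p v = 1) (h : V → ℝ) :
    ∑ T : Fin m → V, PWt (fun _ => p) T * ∑ i, h (T i) = m * ∑ v, p v * h v := by
  have e : ∀ T : Fin m → V, PWt (fun _ => p) T * ∑ i, h (T i) =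
      ∑ i, PWt (fun _ => p) T * h (T i) := by
    intro T
    rw [Finset.mul_sum]
  simp only [e]
  rw [Finset.sum_comm]
  have h1 : ∀ i : Fin m, ∑ T : Fin m → V, PWt (fun _ => p) T * h (T i) = ∑ v, p v * h v :=
    fun i => sum_one (p := fun _ : Fin m => p) (fun _ => hp) i h
  simp only [h1]
  rw [Finset.sum_const, Finset.card_univ, Fintype.card_fin, nsmul_eq_mul]

/-- The expected cost. -/
theorem expected {m : ℕ} (hm : 1 ≤ m) : ∃ B : ℝ, 0 < B ∧ ∀ (V : Type) [Fintype V] [Nonempty V]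
    [DecidableEq V] (d : V → V → ℝ), Dfc d ((m : ℝ) / (m + 1)) → ∀ f0 g0 : V → ℝ,
      (∀ v, 0 ≤ f0 v) → (∀ v, 0 ≤ g0 v) → av f0 ≤ (m : ℝ) / (m + 1) →
      av g0 ≤ (m : ℝ) / (m + 1) →
      ∃ p : V → ℝ, (∀ v, 0 ≤ p v) ∧ (∀ v, p v ≤ B / Fintype.card V) ∧ ∑ v, p v = 1 ∧
        ∑ T : Fin m → V, PWt (fun _ => p) T *
          (cst d T + 2 * max (∑ i, f0 (T i)) (∑ i, g0 (T i))) ≤ m * (m + 1) := by
  set Δ : ℝ := (m : ℝ) / (m + 1) with hΔ
  have hmR : (1 : ℝ) ≤ m := by exact_mod_cast hm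
  have hΔ0 : 0 < Δ := by rw [hΔ]; positivity
  have hΔm : (m + 1) * Δ = m := by rw [hΔ]; field_simp
  obtain ⟨α, hα, hα2, hstar⟩ := alpha_exists (m_cases hm) hΔ
  refine ⟨1 + 2 * α * Δ, by positivity, ?_⟩
  intro V _ _ _ d hd f0 g0 hf0 hg0 hf1 hg1
  obtain ⟨f, g, ρ, hf, hg, hfa, hga, hρ0, hρ, hle⟩ := modify hα f0 g0 hf0 hg0 hf1 hg1
  have hN := cardpos (V := V)
  set N : ℝ := (Fintype.card V : ℝ) with hNdef
  set s : V → ℝ := fun v => f v + g v with hs
  set h : V → ℝ := fun v => f v - g v with hh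
  have hρs : ∀ v, ρ v = (1 + 2 * α * Δ) - α * s v := by
    intro v
    rw [hρ v]
    simp only [hs]
    ring
  have hsa : av s = 2 * Δ := by
    rw [hs, av_add, hfa, hga]; ring
  have hha : av h = 0 := by
    rw [hh, av_sub, hfa, hga]; ring
  have hρa : av ρ = 1 := by
    have : ρ = fun v => (1 + 2 * α * Δ) - α * s v := funext hρs
    rw [this, av_sub, av_const, av_mul, hsa]
    ring
  set H : ℝ := av (fun v => s v ^ 2) with hH
  set S3 : ℝ := av (fun v => s v ^ 2 * s v) with hS3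
  set X : ℝ := av (fun v => s v * f v) with hX
  set Y : ℝ := av (fun v => s v * g v) with hY
  have hXY : X + Y = H := by
    rw [hX, hY, ← av_add, hH]
    congr 1
    funext v
    simp only [hs]
    ring
  have hsn : ∀ v, 0 ≤ s v := fun v => add_nonneg (hf v) (hg v)
  have hXc : X ^ 2 ≤ Δ * av (fun v => s v ^ 2 * f v) := by
    have := av_cs f s hf hsn
    rw [hfa] at this
    exact this
  have hYc : Y ^ 2 ≤ Δ * av (fun v => s v ^ 2 * g v) := by
    have := av_cs g s hg hsn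
    rw [hga] at this
    exact this
  have hS3c : X ^ 2 + Y ^ 2 ≤ Δ * S3 := by
    have : S3 = av (fun v => s v ^ 2 * f v) + av (fun v => s v ^ 2 * g v) := by
      rw [← av_add, hS3]
      congr 1
      funext v
      simp only [hs]
      ring
    rw [this, mul_add]
    linarith
  have hHc : 4 * Δ ^ 2 ≤ H := by
    have := av_cs (fun _ : V => (1 : ℝ)) s (fun _ => zero_le_one) hsn
    simp only [mul_one] at this
    rw [av_const, one_mul, hsa] at this
    rw [hH]
    linarith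
  -- averages with the density
  have a1 : av (fun v => ρ v ^ 2) = 1 + α ^ 2 * (H - 4 * Δ ^ 2) := by
    have : (fun v => ρ v ^ 2) = fun v => ((1 + 2 * α * Δ) ^ 2 - (2 * (1 + 2 * α * Δ) * α) * s v) +
        α ^ 2 * s v ^ 2 := by
      funext v
      rw [hρs v]
      ring
    rw [this, av_add, av_sub, av_const, av_mul, av_mul, hsa]
    ring
  have a2 : av (fun v => ρ v * s v) = 2 * Δ - α * (H - 4 * Δ ^ 2) := by
    have : (fun v => ρ v * s v) = fun v => (1 + 2 * α * Δ) * s v - α * s v ^ 2 := by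
      funext v
      rw [hρs v]
      ring
    rw [this, av_sub, av_mul, av_mul, hsa]
    ring
  have a3 : av (fun v => ρ v * h v ^ 2) ≤ (1 + 2 * α * Δ) * H - α * S3 := by
    have h1 : av (fun v => ρ v * h v ^ 2) ≤ av (fun v => ρ v * s v ^ 2) := by
      refine av_mono fun v => mul_le_mul_of_nonneg_left ?_ (hρ0 v)
      simp only [hh, hs]
      nlinarith [mul_nonneg (hf v) (hg v)]
    have : (fun v => ρ v * s v ^ 2) = fun v => (1 + 2 * α * Δ) * s v ^ 2 -
        α * (s v ^ 2 * s v) := by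
      funext v
      rw [hρs v]
      ring
    rw [this, av_sub, av_mul, av_mul] at h1
    exact h1
  have a4 : av (fun v => ρ v * h v) = -(α * (X - Y)) := by
    have : (fun v => ρ v * h v) = fun v => (1 + 2 * α * Δ) * h v -
        α * (s v * f v - s v * g v) := by
      funext v
      rw [hρs v]
      simp only [hh]
      ring
    rw [this, av_sub, av_mul, av_mul, hha, av_sub]
    ring
  set p : V → ℝ := fun v => ρ v / N with hp
  have hp0 : ∀ v, 0 ≤ p v := fun v => div_nonneg (hρ0 v) hN.le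
  have hp1 : ∑ v, p v = 1 := by
    simp only [hp]
    rw [← Finset.sum_div]
    exact hρa
  have hpE : ∀ φ : V → ℝ, ∑ v, p v * φ v = av (fun v => ρ v * φ v) := by
    intro φ
    unfold av
    rw [Finset.sum_div]
    refine Finset.sum_congr rfl fun v _ => ?_
    simp only [hp]
    ring
  refine ⟨p, hp0, ?_, hp1, ?_⟩
  · intro v
    simp only [hp]
    apply div_le_div_of_nonneg_right _ hN.le
    rw [hρs v]
    have := mul_nonneg hα.le (hsn v)
    linarith
  -- the pointwise bound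
  have hpt : ∀ T : Fin m → V, PWt (fun _ => p) T *
      (cst d T + 2 * max (∑ i, f0 (T i)) (∑ i, g0 (T i))) ≤
      PWt (fun _ => p) T * ∑ i, ∑ j, d (T i) (T j) + PWt (fun _ => p) T * ∑ i, s (T i) +
        (1 / (2 * m)) * (PWt (fun _ => p) T * (∑ i, h (T i)) ^ 2) +
        (m / 2) * PWt (fun _ => p) T := by
    intro T
    by_cases h0 : PWt (fun _ : Fin m => p) T = 0
    · rw [h0]; simp
    · have h1 : ∀ i, f0 (T i) ≤ f (T i) ∧ g0 (T i) ≤ g (T i) := by
        intro i
        apply hle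
        intro h2
        apply h0
        refine Finset.prod_eq_zero (mem_univ i) ?_
        simp only [hp]
        rw [h2, zero_div]
      have h2 : ∑ i, f0 (T i) ≤ ∑ i, f (T i) := Finset.sum_le_sum fun i _ => (h1 i).1
      have h3 : ∑ i, g0 (T i) ≤ ∑ i, g (T i) := Finset.sum_le_sum fun i _ => (h1 i).2
      have e1 : ∑ i, s (T i) = ∑ i, f (T i) + ∑ i, g (T i) := by
        simp only [hs]
        rw [Finset.sum_add_distrib]
      have e2 : ∑ i, h (T i) = ∑ i, f (T i) - ∑ i, g (T i) := by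
        simp only [hh]
        rw [Finset.sum_sub_distrib]
      have h4 : 2 * max (∑ i, f0 (T i)) (∑ i, g0 (T i)) ≤ ∑ i, s (T i) +
          (1 / (2 * m)) * (∑ i, h (T i)) ^ 2 + m / 2 := by
        rw [e1, e2]
        set a := ∑ i, f (T i)
        set b := ∑ i, g (T i)
        have h5 : 2 * max (∑ i, f0 (T i)) (∑ i, g0 (T i)) ≤ a + b + |a - b| := by
          rcases max_cases (∑ i, f0 (T i)) (∑ i, g0 (T i)) with h | h
          · rw [h.1]
            have := le_abs_self (a - b)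
            linarith
          · rw [h.1]
            have := neg_abs_le (a - b)
            linarith
        have h6 : |a - b| ≤ 1 / (2 * m) * (a - b) ^ 2 + m / 2 := by
          rw [← sq_abs (a - b)]
          have h7 : (1 / (2 * (m : ℝ))) * |a - b| ^ 2 + m / 2 - |a - b| =
              (|a - b| - m) ^ 2 / (2 * m) := by
            field_simp
            ring
          have h8 : 0 ≤ (|a - b| - m) ^ 2 / (2 * (m : ℝ)) := by positivity
          linarith
        linarith
      have hW := PWt_nonneg (fun (_ : Fin m) v => hp0 v) T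
      have h5 := mul_le_mul_of_nonneg_left h4 hW
      unfold cst
      have e3 : PWt (fun _ : Fin m => p) T * (∑ i, ∑ j, d (T i) (T j) +
          2 * max (∑ i, f0 (T i)) (∑ i, g0 (T i))) =
          PWt (fun _ => p) T * ∑ i, ∑ j, d (T i) (T j) +
          PWt (fun _ => p) T * (2 * max (∑ i, f0 (T i)) (∑ i, g0 (T i))) := by ring
      rw [e3]
      have e4 : PWt (fun _ : Fin m => p) T * (∑ i, s (T i) +
          (1 / (2 * m)) * (∑ i, h (T i)) ^ 2 + m / 2) =
          PWt (fun _ => p) T * ∑ i, s (T i) +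
          (1 / (2 * m)) * (PWt (fun _ => p) T * (∑ i, h (T i)) ^ 2) +
          (m / 2) * PWt (fun _ => p) T := by ring
      rw [e4] at h5
      linarith
  refine (Finset.sum_le_sum fun T _ => hpt T).trans ?_
  rw [Finset.sum_add_distrib, Finset.sum_add_distrib, Finset.sum_add_distrib, ← Finset.mul_sum,
    ← Finset.mul_sum, sum_pairs_same hp1 d hd.diag, sum_lin_same hp1, sum_sq_same hp1,
    sum_total (fun _ => hp1), hpE, hpE, hpE, a2, a4]
  have hpb := pair_bound hd ρ
  rw [a1] at hpb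
  have hm1 : (0 : ℝ) ≤ m * (m - 1) := mul_nonneg (by linarith) (by linarith)
  exact final_arith hmR (mul_le_mul_of_nonneg_left hpb hm1) a3
    (b2_lem hα hΔ0 hα2 hXY hS3c) (hstar H hHc) hΔm

end

end Pool.Agent.Y361.WHS
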