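import Pool.Agent.Y361.WHS.Local
import Pool.Agent.W163.CF.P10

/-!
# The factor theorem for cost functions
-/

set_option autoImplicit false

namespace Pool.Agent.Y361.WHS

open Finset
open Pool.Agent.W163.CF
open Pool.Agent.FracEM.PMT

theorem sub_Dfc {n : ℕ} {d : Fin n → Fin n → ℝ} {E E' : ℝ} (hd : Dfc d E) (Z : Finset (Fin n))
    (h : E * n ≤ E' * ((Fintype.card {v : Fin n // v ∉ Z} : ℕ) : ℝ)) :
    Dfc (fun v w : {v : Fin n // v ∉ Z} => d v.1 w.1) E' := by
  classical
  refine ⟨fun u v => hd.symm _ _, fun u v => hd.nonneg _ _, fun v => hd.diag _, fun u => ?_⟩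
  have h1 : ∑ v : {v : Fin n // v ∉ Z}, d u.1 v.1 ≤ ∑ v, d u.1 v := by
    rw [← Finset.sum_subtype (univ.filter (fun v => v ∉ Z)) (by simp) (fun v => d u.1 v)]
    exact Finset.sum_le_sum_of_subset_of_nonneg (Finset.filter_subset _ _)
      (fun v _ _ => hd.nonneg _ _)
  have h2 := hd.deg u.1
  rw [Fintype.card_fin] at h2
  exact h1.trans (h2.trans h)

theorem lift_M {n r : ℕ} {d : Fin n → Fin n → ℝ} (Z : Finset (Fin n))
    (M : Finset (Finset {v : Fin n // v ∉ Z}))
    (hM : ∀ e ∈ M, GoodE (fun v w : {v : Fin n // v ∉ Z} => d v.1 w.1) r e)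
    (hd : ∀ e ∈ M, ∀ e' ∈ M, e ≠ e' → Disjoint e e') :
    PMon (HG d r) ((M.biUnion id).map (Function.Embedding.subtype _)) := by
  classical
  refine ⟨M.image (fun e => e.map (Function.Embedding.subtype _)), ?_, ?_, ?_⟩
  · intro e' he'
    rw [Finset.mem_image] at he'
    obtain ⟨e, he, rfl⟩ := he'
    rw [mem_HG]
    obtain ⟨h1, h2⟩ := hM e he
    refine ⟨by rw [Finset.card_map]; exact h1, ?_⟩
    simp only [Finset.sum_map, Function.Embedding.coe_subtype]
    exact h2
  · intro e he e' he' hne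
    rw [Finset.mem_image] at he he'
    obtain ⟨e0, he0, rfl⟩ := he
    obtain ⟨e1, he1, rfl⟩ := he'
    rw [Finset.disjoint_map]
    exact hd e0 he0 e1 he1 (fun h => hne (by rw [h]))
  · ext x
    simp only [Finset.mem_biUnion, Finset.mem_image, Finset.mem_map, id]
    constructor
    · rintro ⟨_, ⟨e, he, rfl⟩, hx⟩
      rw [Finset.mem_map] at hx
      obtain ⟨y, hy, rfl⟩ := hx
      exact ⟨y, ⟨e, he, hy⟩, rfl⟩
    · rintro ⟨y, ⟨e, he, hy⟩, rfl⟩
      exact ⟨_, ⟨e, he, rfl⟩, Finset.mem_map_of_mem _ hy⟩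

theorem factor {r : ℕ} (hr : 2 ≤ r) {E : ℝ} (hE0 : 0 ≤ E) (hE : E * r < r - 1) :
    ∃ n0 : ℕ, ∀ n : ℕ, n0 ≤ n → r ∣ n → ∀ d : Fin n → Fin n → ℝ, Dfc d E →
      PMon (HG d r) univ := by
  classical
  have hrR : (2 : ℝ) ≤ r := by exact_mod_cast hr
  have hr0 : (0 : ℝ) < r := by linarith
  set E' : ℝ := (E + ((r : ℝ) - 1) / r) / 2 with hE'
  have hq : ((r : ℝ) - 1) / r * r = r - 1 := div_mul_cancel₀ _ hr0.ne'
  have hEq : E < ((r : ℝ) - 1) / r := by
    rw [lt_div_iff₀ hr0]; exact hE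
  have hq1 : ((r : ℝ) - 1) / r ≤ 1 := by
    rw [div_le_one hr0]; linarith
  have hE'r : E' * r < r - 1 := by
    rw [hE']
    have : (E + ((r : ℝ) - 1) / r) / 2 * r = (E * r + ((r : ℝ) - 1) / r * r) / 2 := by ring
    rw [this, hq]
    linarith
  have hEE' : E < E' := by rw [hE']; linarith
  have hE'0 : 0 ≤ E' := by linarith
  have hE'1 : E' ≤ 1 := by rw [hE']; linarith
  obtain ⟨c1, hc1, m1, h1⟩ := count_edges hr hE0 hE
  have hrm : r - 1 + 1 = r := by omega
  have hrmR : ((r - 1 : ℕ) : ℝ) = (r : ℝ) - 1 := by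
    rw [Nat.cast_sub (by omega), Nat.cast_one]
  obtain ⟨c2, hc2, m2, h2⟩ := count_links (m := r - 1) (E := E) (by omega) (by
    rw [hrmR]
    have : E * ((r : ℝ) - 1 + 1) = E * r := by ring
    rw [this]
    exact hE)
  rw [hrm] at h2
  have ha : 0 < min (E' - E) (1 / 2) := lt_min (by linarith) (by norm_num)
  obtain ⟨b, hb, n10, hn10⟩ := t_S10 r hr (min c1 c2) (min (E' - E) (1 / 2)) (lt_min hc1 hc2) ha
  obtain ⟨n8, hn8⟩ := tile hr hE'0 hE'r hb
  refine ⟨max (max (max m1 m2) n10) (2 * n8), fun n hn hkn d hd => ?_⟩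
  have hm1 : m1 ≤ n :=
    (le_max_left _ _).trans ((le_max_left _ _).trans ((le_max_left _ _).trans hn))
  have hm2 : m2 ≤ n :=
    (le_max_right _ _).trans ((le_max_left _ _).trans ((le_max_left _ _).trans hn))
  have hn10' : n10 ≤ n := (le_max_right _ _).trans ((le_max_left _ _).trans hn)
  have hn8' : 2 * n8 ≤ n := (le_max_right _ _).trans hn
  have hn0 : (0 : ℝ) ≤ n := Nat.cast_nonneg n
  have hA := h1 n hm1 d hd
  have hB := h2 n hm2 d hd
  obtain ⟨Z, hZ, hZU⟩ := hn10 n hn10' (HG d r) HG_card (by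
    refine le_trans (mul_le_mul_of_nonneg_right (min_le_left c1 c2) (by positivity)) ?_
    convert hA) (by
    intro x x'
    refine le_trans (mul_le_mul_of_nonneg_right (min_le_right c1 c2) (Nat.cast_nonneg _)) ?_
    convert hB x x')
  have hZ1 : (Z.card : ℝ) ≤ (E' - E) * n :=
    hZ.trans (mul_le_mul_of_nonneg_right (min_le_left _ _) hn0)
  have hZ2 : (Z.card : ℝ) ≤ 1 / 2 * n :=
    hZ.trans (mul_le_mul_of_nonneg_right (min_le_right _ _) hn0)
  have hV : Fintype.card {v : Fin n // v ∉ Z} = n - Z.card := by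
    rw [Fintype.card_subtype_compl, Fintype.card_fin, Fintype.card_coe]
  have hZn : Z.card ≤ n := by
    have := Finset.card_le_univ Z
    rwa [Fintype.card_fin] at this
  have hV' : (Fintype.card {v : Fin n // v ∉ Z} : ℝ) = n - Z.card := by
    rw [hV, Nat.cast_sub hZn]
  have hVn : n8 ≤ Fintype.card {v : Fin n // v ∉ Z} := by
    have h1 : (n8 : ℝ) ≤ (Fintype.card {v : Fin n // v ∉ Z} : ℝ) := by
      rw [hV']
      have h2 : (2 : ℝ) * n8 ≤ n := by exact_mod_cast hn8'
      linarith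
    exact_mod_cast h1
  have hZc0 : (0 : ℝ) ≤ Z.card := Nat.cast_nonneg _
  obtain ⟨M, hM, hd', hMc⟩ := hn8 {v : Fin n // v ∉ Z} (fun v w => d v.1 w.1)
    (sub_Dfc hd Z (by
      rw [hV']
      nlinarith)) hVn
  have hP := lift_M Z M hM hd'
  set W' : Finset (Fin n) := (M.biUnion id).map (Function.Embedding.subtype _) with hW'
  have hW'c : W'.card = (M.biUnion id).card := Finset.card_map _
  have hZW : Disjoint Z W' := by
    rw [Finset.disjoint_left]
    intro x hx hx'
    rw [hW', Finset.mem_map] at hx'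
    obtain ⟨y, _, rfl⟩ := hx'
    exact y.2 hx
  -- the leftover
  let U : Finset (Fin n) := univ \ (Z ∪ W')
  have hUc : U.card + (Z.card + W'.card) = n := by
    have h1 : U.card = n - (Z ∪ W').card := by
      change (univ \ (Z ∪ W')).card = _
      rw [Finset.card_sdiff_of_subset (Finset.subset_univ _), Finset.card_univ, Fintype.card_fin]
    have h2 : (Z ∪ W').card ≤ n := by
      have := Finset.card_le_univ (Z ∪ W')
      rwa [Fintype.card_fin] at this
    rw [Finset.card_union_of_disjoint hZW] at h1 h2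
    omega
  have hPZ : PMon (HG d r) Z := by
    have := hZU ∅ (Finset.disjoint_empty_left _) (by
      rw [Finset.card_empty, Nat.cast_zero]; exact mul_nonneg hb.le hn0) (by
      rw [Finset.card_empty]; exact dvd_zero _)
    rwa [Finset.union_empty] at this
  have hkZ : r ∣ Z.card := PMon_card (HG d r) HG_card Z hPZ
  have hkW : r ∣ W'.card := PMon_card (HG d r) HG_card W' hP
  have hkU : r ∣ U.card := by
    have h1 : r ∣ U.card + (Z.card + W'.card) := by rw [hUc]; exact hkn
    exact (Nat.dvd_add_left (dvd_add hkZ hkW)).1 h1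
  have hUZ : Disjoint U Z := by
    rw [Finset.disjoint_left]
    intro x hx hx'
    exact (Finset.mem_sdiff.1 hx).2 (Finset.mem_union_left _ hx')
  have hUW : Disjoint U W' := by
    rw [Finset.disjoint_left]
    intro x hx hx'
    exact (Finset.mem_sdiff.1 hx).2 (Finset.mem_union_right _ hx')
  have hUb : (U.card : ℝ) ≤ b * n := by
    have h1 : (U.card : ℝ) + (Z.card + W'.card) = n := by exact_mod_cast hUc
    rw [← hW'c, hV'] at hMc
    have h2 : b * ((n : ℝ) - Z.card) ≤ b * n :=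
      mul_le_mul_of_nonneg_left (by linarith) hb.le
    linarith
  have hPU := hZU U hUZ hUb hkU
  have hfin : PMon (HG d r) ((Z ∪ U) ∪ W') :=
    PMon_union _ _ _ (Finset.disjoint_union_left.2 ⟨hZW, hUW⟩) hPU hP
  have huniv : (Z ∪ U) ∪ W' = univ := by
    apply Finset.eq_univ_of_forall
    intro x
    by_cases hx : x ∈ Z ∪ W'
    · rcases Finset.mem_union.1 hx with h | h
      · exact Finset.mem_union_left _ (Finset.mem_union_left _ h)
      · exact Finset.mem_union_right _ h
    · exact Finset.mem_union_left _ (Finset.mem_union_right _ (Finset.mem_sdiff.2 ⟨Finset.mem_univ _, hx⟩))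
  rw [huniv] at hfin
  exact hfin

end Pool.Agent.Y361.WHS
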