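import Pool.Agent.Y361.WHS.Prob
import Pool.Agent.Y361.WHS.Alg

/-!
# Cheap tuples below a staircase
-/

set_option autoImplicit false
set_option linter.unusedSectionVars false

namespace Pool.Agent.Y361.WHS

open Finset

/-- a symmetric nonnegative cost function on pairs with all row sums at most `E` times the number
of vertices -/
structure Dfc {V : Type} [Fintype V] (d : V → V → ℝ) (E : ℝ) : Prop where
  symm : ∀ u v, d u v = d v u
  nonneg : ∀ u v, 0 ≤ d u v
  diag : ∀ v, d v v = 0
  deg : ∀ u, ∑ v, d u v ≤ E * (Fintype.card V : ℝ)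

/-- the cost of a tuple: sum over ordered pairs -/
noncomputable def cst {V ι : Type} [Fintype ι] (d : V → V → ℝ) (f : ι → V) : ℝ :=
  ∑ i, ∑ j, d (f i) (f j)

/-- the `i`-th interval -/
def Jv (n : ℕ) (e : ℕ → ℕ) (i : ℕ) : Finset (Fin n) :=
  univ.filter (fun x : Fin n => e i ≤ x.val ∧ x.val < e (i + 1))

theorem mem_Jv {n : ℕ} {e : ℕ → ℕ} {i : ℕ} {x : Fin n} :
    x ∈ Jv n e i ↔ e i ≤ x.val ∧ x.val < e (i + 1) := by
  simp [Jv]

theorem card_Jv {n : ℕ} {e : ℕ → ℕ} {i : ℕ} (h : e (i + 1) ≤ n) :
    (Jv n e i).card = e (i + 1) - e i := by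
  have h1 : (Jv n e i).image (fun x : Fin n => x.val) = Finset.Ico (e i) (e (i + 1)) := by
    ext y
    simp only [Finset.mem_image, mem_Jv, Finset.mem_Ico]
    constructor
    · rintro ⟨x, hx, rfl⟩
      exact hx
    · intro hy
      exact ⟨⟨y, lt_of_lt_of_le hy.2 h⟩, hy, rfl⟩
  rw [← Nat.card_Ico, ← h1, Finset.card_image_of_injective _ Fin.val_injective]

theorem FR0 {n r q s b : ℕ} (hr : 2 ≤ r) (hs : s < q) (hb : 1 ≤ b) (e : ℕ → ℕ)
    (he0 : e 0 = 0) (he1 : e 1 + s * b = q * b)
    (hmid : ∀ i, 1 ≤ i → i < r - 1 → e (i + 1) = e i + q * b)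
    (hlast : e r = e (r - 1) + 2 * s * b) (hn : e r ≤ n)
    {d : Fin n → Fin n → ℝ} {E : ℝ} (hd : Dfc d E) :
    (1 - E * n / (q * b * (r - 1))) * (b : ℝ) ^ r ≤
      ((univ.filter (fun f : Fin r → Fin n => (∀ i : Fin r, (f i).val < e (i.val + 1)) ∧
        cst d f ≤ r * (r - 1))).card : ℝ) := by
  classical
  have hq : 0 < q := by omega
  have hqR : (0 : ℝ) < q := by exact_mod_cast hq
  have hbR : (0 : ℝ) < b := by exact_mod_cast hb
  have hrR : (2 : ℝ) ≤ r := by exact_mod_cast hr
  have hqb : s * b + b ≤ q * b := by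
    have := Nat.mul_le_mul_right b (show s + 1 ≤ q from hs)
    rw [Nat.add_mul, one_mul] at this
    exact this
  have hstep : ∀ i, i < r → e i ≤ e (i + 1) := by
    intro i hi
    by_cases h0 : i = 0
    · subst h0; rw [he0]; exact Nat.zero_le _
    · by_cases h1 : i < r - 1
      · rw [hmid i (by omega) h1]; exact Nat.le_add_right _ _
      · have : i = r - 1 := by omega
        subst this
        have h2 : r - 1 + 1 = r := by omega
        rw [h2, hlast, Nat.mul_assoc]; exact Nat.le_add_right _ _
  have hmono : ∀ i j, i ≤ j → j ≤ r → e i ≤ e j := by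
    intro i j hij hj
    induction j, hij using Nat.le_induction with
    | base => exact le_rfl
    | succ j hij ih => exact (ih (by omega)).trans (hstep j (by omega))
  have hcard : ∀ i, i < r → (Jv n e i).card = e (i + 1) - e i := fun i hi =>
    card_Jv ((hmono (i + 1) r (by omega) le_rfl).trans hn)
  have hbig : ∀ i, i < r → (i = r - 1 → 0 < s) → b ≤ (Jv n e i).card := by
    intro i hi hi2
    rw [hcard i hi]
    by_cases h0 : i = 0
    · subst h0
      by_cases h1 : 0 = r - 1
      · omega
      · rw [he0]; simp only [zero_add]; omega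
    · by_cases h1 : i < r - 1
      · rw [hmid i (by omega) h1]
        have : b ≤ q * b := Nat.le_mul_of_pos_left b hq
        omega
      · have h2 : i = r - 1 := by omega
        have h3 := hi2 h2
        subst h2
        have h4 : r - 1 + 1 = r := by omega
        rw [h4, hlast]
        have h5 : b ≤ 2 * s * b := Nat.le_mul_of_pos_left b (by omega)
        omega
  have hcR : ∀ i, i < r → ((Jv n e i).card : ℝ) = (e (i + 1) : ℝ) - e i := by
    intro i hi
    rw [hcard i hi, Nat.cast_sub (hstep i hi)]
  set A : ℕ → ℕ → ℝ := fun i j => (∑ u ∈ Jv n e i, ∑ v ∈ Jv n e j, d u v) /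
    ((Jv n e i).card * (Jv n e j).card) with hA
  have hAs : ∀ i j, A i j = A j i := by
    intro i j
    simp only [hA]
    rw [Finset.sum_comm, mul_comm]
    congr 1
    refine Finset.sum_congr rfl fun v _ => Finset.sum_congr rfl fun u _ => hd.symm _ _
  have hA0 : ∀ i j, 0 ≤ A i j := by
    intro i j
    simp only [hA]
    exact div_nonneg (Finset.sum_nonneg fun u _ => Finset.sum_nonneg fun v _ => hd.nonneg _ _)
      (by positivity)
  set σ : ℝ := s / q with hσ
  set R : ℝ := E * n / (q * b) with hR
  have hσ0 : 0 ≤ σ := by positivity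
  have hσ1 : σ < 1 := by
    rw [hσ, div_lt_one hqR]; exact_mod_cast hs
  -- disjointness
  have hdisj : ∀ i ∈ range r, ∀ j ∈ range r, i ≠ j → Disjoint (Jv n e i) (Jv n e j) := by
    intro i hi j hj hij
    rw [Finset.mem_range] at hi hj
    rw [Finset.disjoint_left]
    intro x hx hx'
    rw [mem_Jv] at hx hx'
    rcases lt_or_gt_of_ne hij with h | h
    · have := hmono (i + 1) j (by omega) (by omega)
      omega
    · have := hmono (j + 1) i (by omega) (by omega)
      omega
  have hrowsum : ∀ i, i < r - 1 → ∑ j ∈ range r, ((Jv n e j).card : ℝ) * A i j ≤ E * n := by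
    intro i hi
    have hci : (0 : ℝ) < (Jv n e i).card := by
      have := hbig i (by omega) (fun h => by omega)
      exact_mod_cast (lt_of_lt_of_le hb this)
    have h1 : ∀ j ∈ range r, ((Jv n e j).card : ℝ) * A i j =
        (∑ u ∈ Jv n e i, ∑ v ∈ Jv n e j, d u v) / (Jv n e i).card := by
      intro j _
      simp only [hA]
      by_cases hj : (Jv n e j).card = 0
      · have : Jv n e j = ∅ := Finset.card_eq_zero.1 hj
        rw [this]
        simp
      · have hj' : ((Jv n e j).card : ℝ) ≠ 0 := by exact_mod_cast hj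
        field_simp
    rw [Finset.sum_congr rfl h1, ← Finset.sum_div, div_le_iff₀ hci, Finset.sum_comm]
    calc ∑ u ∈ Jv n e i, ∑ j ∈ range r, ∑ v ∈ Jv n e j, d u v
        ≤ ∑ _u ∈ Jv n e i, E * n := by
          refine Finset.sum_le_sum fun u _ => ?_
          rw [← Finset.sum_biUnion hdisj]
          refine (Finset.sum_le_sum_of_subset_of_nonneg (Finset.subset_univ _)
            (fun v _ _ => hd.nonneg u v)).trans ?_
          have := hd.deg u
          rwa [Fintype.card_fin] at this
      _ = E * n * (Jv n e i).card := by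
          rw [Finset.sum_const, nsmul_eq_mul]; ring
  -- the cards
  have hc0 : ((Jv n e 0).card : ℝ) = (1 - σ) * (q * b) := by
    rw [hcR 0 (by omega), he0]
    have : ((e 1 : ℕ) : ℝ) + s * b = q * b := by exact_mod_cast he1
    simp only [zero_add, Nat.cast_zero, sub_zero, hσ]
    field_simp
    linarith
  have hcm : ∀ i, 1 ≤ i → i < r - 1 → ((Jv n e i).card : ℝ) = q * b := by
    intro i hi hi2
    rw [hcR i (by omega), hmid i hi hi2]
    push_cast
    ring
  have hcl : ((Jv n e (r - 1)).card : ℝ) = 2 * σ * (q * b) := by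
    have h4 : r - 1 + 1 = r := by omega
    rw [hcR (r - 1) (by omega), h4, hlast, hσ]
    push_cast
    field_simp
    ring
  have hrow : ∀ i, i < r - 1 →
      ∑ j ∈ range (r - 1), A i j - σ * A i 0 + 2 * σ * A i (r - 1) ≤ R := by
    intro i hi
    have h1 := hrowsum i hi
    obtain ⟨m, hm⟩ : ∃ m, r = m + 2 := ⟨r - 2, by omega⟩
    have e1 : r - 1 = m + 1 := by omega
    have e2 : r = (m + 1) + 1 := by omega
    rw [hR, le_div_iff₀ (by positivity)]
    refine le_trans (le_of_eq ?_) h1
    rw [e1]
    have hL : ∑ j ∈ range (m + 1), A i j = ∑ k ∈ range m, A i (k + 1) + A i 0 :=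
      Finset.sum_range_succ' _ _
    have hRr : ∑ j ∈ range r, ((Jv n e j).card : ℝ) * A i j =
        (∑ k ∈ range m, ((Jv n e (k + 1)).card : ℝ) * A i (k + 1) +
          ((Jv n e 0).card : ℝ) * A i 0) + ((Jv n e (m + 1)).card : ℝ) * A i (m + 1) := by
      conv_lhs => rw [e2]
      rw [Finset.sum_range_succ, Finset.sum_range_succ']
    rw [hL, hRr]
    have h2 : ∑ k ∈ range m, ((Jv n e (k + 1)).card : ℝ) * A i (k + 1) =
        ∑ k ∈ range m, (q * b : ℝ) * A i (k + 1) := by
      refine Finset.sum_congr rfl fun k hk => ?_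
      rw [Finset.mem_range] at hk
      rw [hcm (k + 1) (by omega) (by omega)]
    rw [e1] at hcl
    rw [h2, hc0, hcl, ← Finset.mul_sum]
    ring
  obtain ⟨k, hk, hk2, hkavg⟩ := alg hAs hA0 hr hσ0 hσ1 hrow
  -- the distribution
  have hbig2 : ∀ l, l ≤ k → b ≤ (Jv n e l).card := by
    intro l hl
    refine hbig l (by omega) (fun h => ?_)
    have h1 : k = r - 1 := by omega
    have h2 := hk2 h1
    rcases Nat.eq_zero_or_pos s with h3 | h3
    · rw [hσ, h3] at h2
      simp at h2
    · exact h3
  set p : Fin r → Fin n → ℝ := fun i v =>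
    if v ∈ Jv n e (min i.val k) then 1 / ((Jv n e (min i.val k)).card : ℝ) else 0 with hp
  have hcpos : ∀ i : Fin r, (0 : ℝ) < (Jv n e (min i.val k)).card := by
    intro i
    exact_mod_cast (lt_of_lt_of_le hb (hbig2 _ (min_le_right _ _)))
  have hp1 : ∀ i, ∑ v, p i v = 1 := by
    intro i
    simp only [hp]
    rw [Finset.sum_ite_mem, Finset.univ_inter, Finset.sum_const, nsmul_eq_mul]
    exact mul_one_div_cancel (hcpos i).ne'
  have hp0 : ∀ i v, 0 ≤ p i v := by
    intro i v
    simp only [hp]
    split_ifs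
    · exact (div_pos one_pos (hcpos i)).le
    · exact le_rfl
  have hpb : ∀ i v, p i v ≤ 1 / b := by
    intro i v
    simp only [hp]
    split_ifs
    · apply one_div_le_one_div_of_le hbR
      exact_mod_cast hbig2 _ (min_le_right _ _)
    · positivity
  have hpair : ∀ i j : Fin r, ∑ u, ∑ v, p i u * p j v * d u v =
      A (min i.val k) (min j.val k) := by
    intro i j
    simp only [hp, hA]
    have h1 : ∀ u, ∑ v, (if u ∈ Jv n e (min i.val k) then
          1 / ((Jv n e (min i.val k)).card : ℝ) else 0) *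
        (if v ∈ Jv n e (min j.val k) then 1 / ((Jv n e (min j.val k)).card : ℝ) else 0) * d u v =
        if u ∈ Jv n e (min i.val k) then ∑ v ∈ Jv n e (min j.val k),
          d u v / ((Jv n e (min i.val k)).card * (Jv n e (min j.val k)).card) else 0 := by
      intro u
      by_cases hu : u ∈ Jv n e (min i.val k)
      · rw [if_pos hu, if_pos hu]
        rw [← Finset.sum_filter_add_sum_filter_not univ (fun v => v ∈ Jv n e (min j.val k))]
        rw [Finset.sum_eq_zero (s := univ.filter (fun v => v ∉ Jv n e (min j.val k)))]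
        · rw [add_zero, Finset.filter_mem_eq_inter, Finset.univ_inter]
          refine Finset.sum_congr rfl fun v hv => ?_
          rw [if_pos hv]
          have := (hcpos i).ne'
          have := (hcpos j).ne'
          field_simp
        · intro v hv
          rw [Finset.mem_filter] at hv
          rw [if_neg hv.2]
          ring
      · rw [if_neg hu, if_neg hu]
        simp
    simp only [h1]
    rw [Finset.sum_ite_mem, Finset.univ_inter, Finset.sum_div]
    refine Finset.sum_congr rfl fun u _ => ?_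
    rw [Finset.sum_div]
  have hE : ∑ f : Fin r → Fin n, PWt p f * cst d f ≤ r * R := by
    have h1 := sum_pairs hp1 d hd.diag
    unfold cst
    rw [h1]
    refine le_trans (le_of_eq ?_) hkavg
    unfold avg
    rw [Finset.sum_range]
    refine Finset.sum_congr rfl fun i _ => ?_
    rw [Finset.sum_range]
    refine Finset.sum_congr rfl fun j _ => ?_
    rw [hpair]
    by_cases hij : i = j
    · rw [if_pos hij, if_pos (by rw [hij])]
    · rw [if_neg hij, if_neg (fun h => hij (Fin.ext h))]
  have hK : (0 : ℝ) < r * (r - 1) := by nlinarith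
  have hmk := markov_card (PWt p) (fun f => cst d f) (PWt_nonneg hp0)
    (fun f => Finset.sum_nonneg fun i _ => Finset.sum_nonneg fun j _ => hd.nonneg _ _)
    (sum_total hp1) hK hE (B := (1 / b) ^ r) (by
      intro f
      unfold PWt
      calc ∏ i, p i (f i) ≤ ∏ _i : Fin r, (1 / b : ℝ) :=
            Finset.prod_le_prod (fun i _ => hp0 i _) (fun i _ => hpb i _)
        _ = _ := by rw [Finset.prod_const, Finset.card_univ, Fintype.card_fin])
  have hle : (univ.filter (fun f : Fin r → Fin n => PWt p f ≠ 0 ∧ cst d f ≤ r * (r - 1))).card ≤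
      (univ.filter (fun f : Fin r → Fin n => (∀ i : Fin r, (f i).val < e (i.val + 1)) ∧
        cst d f ≤ r * (r - 1))).card := by
    refine Finset.card_le_card ?_
    intro f hf
    rw [Finset.mem_filter] at hf ⊢
    refine ⟨hf.1, fun i => ?_, hf.2.2⟩
    have h1 : p i (f i) ≠ 0 := by
      intro h
      exact hf.2.1 (Finset.prod_eq_zero (mem_univ i) h)
    have h2 : f i ∈ Jv n e (min i.val k) := by
      by_contra h
      exact h1 (if_neg h)
    rw [mem_Jv] at h2
    exact lt_of_lt_of_le h2.2 (hmono _ _ (by omega) (by omega))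
  have hfin : 1 - r * R / (r * (r - 1)) = 1 - E * n / (q * b * (r - 1)) := by
    rw [hR]
    have h1 : (r : ℝ) ≠ 0 := by positivity
    have h2 : (r : ℝ) - 1 ≠ 0 := by
      have : (0 : ℝ) < (r : ℝ) - 1 := by linarith
      exact this.ne'
    field_simp
  rw [hfin] at hmk
  have hbr : (0 : ℝ) < (b : ℝ) ^ r := by positivity
  calc (1 - E * n / (q * b * (r - 1))) * (b : ℝ) ^ r
      ≤ (((univ.filter (fun f : Fin r → Fin n => PWt p f ≠ 0 ∧ cst d f ≤ r * (r - 1))).card : ℝ) *
        (1 / b) ^ r) * (b : ℝ) ^ r := mul_le_mul_of_nonneg_right hmk hbr.le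
    _ = ((univ.filter (fun f : Fin r → Fin n => PWt p f ≠ 0 ∧ cst d f ≤ r * (r - 1))).card : ℝ) := by
        rw [one_div, inv_pow, mul_assoc, inv_mul_cancel₀ hbr.ne', mul_one]
    _ ≤ _ := by exact_mod_cast hle

end Pool.Agent.Y361.WHS
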