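import Pool.Agent.Y361.WHS.Frac

/-!
# The robust fractional theorem
-/

set_option autoImplicit false
set_option linter.unusedSectionVars false

namespace Pool.Agent.Y361.WHS

open Finset

/-- extension by zero -/
noncomputable def ext0 {n : ℕ} (y : Fin n → ℝ) (j : ℕ) : ℝ := if h : j < n then y ⟨j, h⟩ else 0

theorem ext0_of_lt {n : ℕ} (y : Fin n → ℝ) {j : ℕ} (h : j < n) : ext0 y j = y ⟨j, h⟩ := dif_pos h

theorem ext0_nonneg {n : ℕ} {y : Fin n → ℝ} (hy : ∀ v, 0 ≤ y v) (j : ℕ) : 0 ≤ ext0 y j := by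
  unfold ext0
  split_ifs
  · exact hy _
  · exact le_rfl

theorem ext0_mono {n : ℕ} {y : Fin n → ℝ} (hm : Monotone y) {i j : ℕ} (hij : i ≤ j) (hj : j < n) :
    ext0 y i ≤ ext0 y j := by
  rw [ext0_of_lt y hj, ext0_of_lt y (lt_of_le_of_lt hij hj)]
  exact hm hij

theorem sum_ext0 {n : ℕ} (y : Fin n → ℝ) : ∑ x ∈ range n, ext0 y x = ∑ v, y v := by
  rw [Finset.sum_range]
  refine Finset.sum_congr rfl fun i _ => ?_
  rw [ext0_of_lt y i.2]

theorem sum_blocks (F : ℕ → ℝ) (q : ℕ) (m : ℕ) :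
    ∑ i ∈ range m, ∑ s ∈ range q, F (i * q + s) = ∑ j ∈ range (m * q), F j := by
  induction m with
  | zero => simp
  | succ m ih =>
    rw [Finset.sum_range_succ, ih, Nat.succ_mul, Finset.sum_range_add]

theorem sum_refl (F : ℕ → ℝ) (q i : ℕ) :
    ∑ s ∈ range q, F ((i + 1) * q - s) = ∑ s ∈ range q, F (i * q + s + 1) := by
  rw [← Finset.sum_range_reflect (fun s => F (i * q + s + 1)) q]
  refine Finset.sum_congr rfl fun s hs => ?_
  rw [Finset.mem_range] at hs
  congr 1
  rw [Nat.succ_mul]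
  omega

theorem exists_s {n r q b : ℕ} (hr : 2 ≤ r) (hq : 0 < q) (hb : 1 ≤ b) (hn : r * q * b ≤ n)
    {y : Fin n → ℝ} (hy0 : ∀ v, 0 ≤ y v) (hmon : Monotone y) :
    ∃ s, s < q ∧ ∑ i ∈ range (r - 1), ext0 y (((i + 1) * q - s) * b) +
      ext0 y (((r - 1) * q + s) * b) ≤ (1 + 1 / q) * (∑ v, y v) / (q * b) := by
  have hqR : (0 : ℝ) < q := by exact_mod_cast hq
  have hbR : (0 : ℝ) < b := by exact_mod_cast hb
  set Y : ℝ := ∑ v, y v with hY
  set G : ℕ → ℝ := fun j => ext0 y (j * b) with hG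
  obtain ⟨m, rfl⟩ : ∃ m, r = m + 1 := ⟨r - 1, by omega⟩
  have em : m + 1 - 1 = m := by omega
  rw [em]
  have hlt : ∀ j, j < (m + 1) * q → j * b < n := by
    intro j hj
    have h1 : (j + 1) * b ≤ (m + 1) * q * b := Nat.mul_le_mul_right b hj
    have h2 : (j + 1) * b = j * b + b := by ring
    omega
  have hG0 : ∀ j, 0 ≤ G j := fun j => ext0_nonneg hy0 _
  have hGm : ∀ i j, i ≤ j → j < (m + 1) * q → G i ≤ G j := fun i j hij hj =>
    ext0_mono hmon (Nat.mul_le_mul_right b hij) (hlt j hj)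
  -- block sums
  have hS : (b : ℝ) * ∑ j ∈ range ((m + 1) * q), G j ≤ Y := by
    calc (b : ℝ) * ∑ j ∈ range ((m + 1) * q), G j
        = ∑ j ∈ range ((m + 1) * q), ∑ _t ∈ range b, G j := by
          rw [Finset.mul_sum]
          refine Finset.sum_congr rfl fun j _ => ?_
          rw [Finset.sum_const, Finset.card_range, nsmul_eq_mul]
      _ ≤ ∑ j ∈ range ((m + 1) * q), ∑ t ∈ range b, ext0 y (j * b + t) := by
          refine Finset.sum_le_sum fun j hj => Finset.sum_le_sum fun t ht => ?_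
          rw [Finset.mem_range] at hj ht
          refine ext0_mono hmon (Nat.le_add_right _ _) ?_
          have h1 : (j + 1) * b ≤ (m + 1) * q * b := Nat.mul_le_mul_right b hj
          have h2 : (j + 1) * b = j * b + b := by ring
          omega
      _ = ∑ x ∈ range ((m + 1) * q * b), ext0 y x := sum_blocks (ext0 y) b _
      _ ≤ ∑ x ∈ range n, ext0 y x := by
          refine Finset.sum_le_sum_of_subset_of_nonneg ?_ (fun x _ _ => ext0_nonneg hy0 x)
          intro x hx
          rw [Finset.mem_range] at hx ⊢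
          exact lt_of_lt_of_le hx hn
      _ = Y := sum_ext0 y
  set S : ℝ := ∑ j ∈ range ((m + 1) * q), G j with hSdef
  have hsplit : S = ∑ j ∈ range (m * q), G j + ∑ s ∈ range q, G (m * q + s) := by
    rw [hSdef, Nat.succ_mul, Finset.sum_range_add]
  have hM : (q : ℝ) * G (m * q) ≤ S := by
    have h1 : (q : ℝ) * G (m * q) ≤ ∑ s ∈ range q, G (m * q + s) := by
      rw [← nsmul_eq_mul, ← Finset.card_range q, ← Finset.sum_const]
      rw [Finset.card_range]
      refine Finset.sum_le_sum fun s hs => ?_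
      rw [Finset.mem_range] at hs
      refine hGm _ _ (Nat.le_add_right _ _) ?_
      rw [Nat.succ_mul]; omega
    have h2 : 0 ≤ ∑ j ∈ range (m * q), G j := Finset.sum_nonneg fun j _ => hG0 j
    linarith
  have hshift : ∑ j ∈ range (m * q), G (j + 1) ≤ ∑ j ∈ range (m * q), G j + G (m * q) := by
    have h1 := Finset.sum_range_succ' G (m * q)
    have h2 := Finset.sum_range_succ G (m * q)
    have h3 := hG0 0
    linarith
  have htot : ∑ s ∈ range q, (∑ i ∈ range m, G ((i + 1) * q - s) + G (m * q + s)) ≤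
      (1 + 1 / q) * S := by
    rw [Finset.sum_add_distrib, Finset.sum_comm]
    have h1 : ∑ i ∈ range m, ∑ s ∈ range q, G ((i + 1) * q - s) =
        ∑ j ∈ range (m * q), G (j + 1) := by
      rw [← sum_blocks (fun j => G (j + 1)) q m]
      exact Finset.sum_congr rfl fun i _ => sum_refl G q i
    rw [h1]
    have h4 : G (m * q) ≤ 1 / q * S := by
      rw [one_div, inv_mul_eq_div, le_div_iff₀ hqR]
      linarith
    linarith
  have hex : ∃ s ∈ range q, (∑ i ∈ range m, G ((i + 1) * q - s) + G (m * q + s)) ≤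
      (1 + 1 / q) * S / q := by
    apply Finset.exists_le_of_sum_le ⟨0, Finset.mem_range.2 hq⟩
    rw [Finset.sum_const, Finset.card_range, nsmul_eq_mul, mul_div_cancel₀ _ hqR.ne']
    exact htot
  obtain ⟨s, hs, hle⟩ := hex
  refine ⟨s, Finset.mem_range.1 hs, hle.trans ?_⟩
  rw [div_le_div_iff₀ hqR (by positivity)]
  have h5 : 0 ≤ (1 + 1 / (q : ℝ)) * q := by positivity
  nlinarith [mul_le_mul_of_nonneg_left hS h5]

/-- the interval end points -/
def ep (r q s b i : ℕ) : ℕ := if i = 0 then 0 else if i = r then ((r - 1) * q + s) * b else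
  (i * q - s) * b

theorem FR1 {r : ℕ} (hr : 2 ≤ r) {E ε : ℝ} (hE0 : 0 ≤ E) (hE : E * r < r - 1) (hε : 0 < ε)
    (hε1 : ε ≤ 1) : ∃ c : ℝ, 0 < c ∧ ∃ n0 : ℕ, ∀ n : ℕ, n0 ≤ n → ∀ d : Fin n → Fin n → ℝ,
      Dfc d E → ∀ y : Fin n → ℝ, (∀ v, 0 ≤ y v) → Monotone y →
      r * ∑ v, y v ≤ (1 - ε) * n →
      c * (n : ℝ) ^ r ≤ ((univ.filter (fun f : Fin r → Fin n => cst d f ≤ r * (r - 1) ∧
        ∑ j, y (f j) ≤ 1 - ε / 2)).card : ℝ) := by
  classical
  have hrR : (2 : ℝ) ≤ r := by exact_mod_cast hr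
  have hr1 : (0 : ℝ) < (r : ℝ) - 1 := by linarith
  set ρ : ℝ := E * r / (r - 1) with hρ
  have hρ0 : 0 ≤ ρ := by positivity
  have hρ1 : ρ < 1 := by rw [hρ, div_lt_one hr1]; exact hE
  obtain ⟨q, hq⟩ := exists_nat_ge (8 / ε)
  have h8 : 0 < 8 / ε := by positivity
  have hqR : (0 : ℝ) < q := lt_of_lt_of_le h8 hq
  have hq0 : 0 < q := by exact_mod_cast hqR
  obtain ⟨B0, hB0⟩ := exists_nat_ge (8 / ε + 2 / (1 - ρ))
  have h2 : 0 < 2 / (1 - ρ) := by
    apply div_pos two_pos; linarith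
  have hrq : 0 < r * q := Nat.mul_pos (by omega) hq0
  have hrqR : (0 : ℝ) < r * q := by positivity
  refine ⟨(1 - ρ) / 2 / (2 * (r * q)) ^ r, by
    apply div_pos (by linarith) (by positivity), r * q * B0, ?_⟩
  intro n hn d hd y hy0 hmon hY
  set b : ℕ := n / (r * q) with hb
  have hbB : B0 ≤ b := by
    rw [hb, Nat.le_div_iff_mul_le hrq, mul_comm]
    exact hn
  have hbR' : 8 / ε + 2 / (1 - ρ) ≤ b := hB0.trans (by exact_mod_cast hbB)
  have hbR : (0 : ℝ) < b := by linarith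
  have hb1 : 1 ≤ b := by
    have : 0 < b := by exact_mod_cast hbR
    omega
  have hb1R : (1 : ℝ) ≤ b := by exact_mod_cast hb1
  have hnb : r * q * b ≤ n := by rw [hb]; exact Nat.mul_div_le _ _
  have hnb2 : n < r * q * (b + 1) := by
    rw [hb, Nat.mul_add, mul_one]
    have := Nat.lt_mul_div_succ n hrq
    rw [Nat.mul_add, mul_one] at this
    exact this
  have hnbR : (n : ℝ) ≤ r * q * (b + 1) := by exact_mod_cast hnb2.le
  obtain ⟨s, hs, hle⟩ := exists_s hr hq0 hb1 hnb hy0 hmon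
  have hsq : ∀ i, 1 ≤ i → s ≤ i * q := by
    intro i hi
    have : q ≤ i * q := Nat.le_mul_of_pos_left q hi
    omega
  have hen : ep r q s b r < r * q * b := by
    unfold ep
    rw [if_neg (by omega), if_pos rfl]
    have h3 : (r - 1) * q + s + 1 ≤ r * q := by
      obtain ⟨m, rfl⟩ : ∃ m, r = m + 1 := ⟨r - 1, by omega⟩
      rw [Nat.succ_mul, Nat.add_sub_cancel]
      omega
    have h4 := Nat.mul_le_mul_right b h3
    rw [Nat.add_mul ((r - 1) * q + s) 1 b, one_mul] at h4
    omega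
  have hfr := FR0 (n := n) (q := q) (s := s) (b := b) hr hs hb1 (ep r q s b)
    (by simp [ep]) (by
      unfold ep
      rw [if_neg (by norm_num), if_neg (by omega), one_mul, ← Nat.add_mul]
      congr 1; omega)
    (by
      intro i hi hi2
      unfold ep
      rw [if_neg (by omega), if_neg (by omega), if_neg (by omega), if_neg (by omega), ← Nat.add_mul]
      congr 1
      have := hsq i hi
      rw [Nat.add_mul, one_mul]
      omega)
    (by
      unfold ep
      rw [if_neg (by omega), if_pos rfl, if_neg (by omega), if_neg (by omega), ← Nat.add_mul]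
      congr 1
      have := hsq (r - 1) (by omega)
      omega)
    (hen.le.trans hnb) hd
  have hep : ∀ i, i < r → ep r q s b (i + 1) < n := by
    intro i hi
    by_cases h : i + 1 = r
    · rw [h]; exact hen.trans_le hnb
    · unfold ep
      rw [if_neg (by omega), if_neg h]
      have h3 : (i + 1) * q - s + 1 ≤ r * q := by
        have h5 : (i + 2) * q ≤ r * q := Nat.mul_le_mul_right q (by omega)
        have h6 : (i + 2) * q = (i + 1) * q + q := by ring
        omega
      have h4 := Nat.mul_le_mul_right b h3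
      rw [Nat.add_mul ((i + 1) * q - s) 1 b, one_mul] at h4
      omega
  have hsum : ∑ i ∈ range r, ext0 y (ep r q s b (i + 1)) =
      ∑ i ∈ range (r - 1), ext0 y (((i + 1) * q - s) * b) + ext0 y (((r - 1) * q + s) * b) := by
    obtain ⟨m, rfl⟩ : ∃ m, r = m + 1 := ⟨r - 1, by omega⟩
    rw [Nat.add_sub_cancel, Finset.sum_range_succ]
    congr 1
    · refine Finset.sum_congr rfl fun i hi => ?_
      rw [Finset.mem_range] at hi
      unfold ep
      rw [if_neg (by omega), if_neg (by omega)]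
    · unfold ep
      rw [if_neg (by omega), if_pos rfl, Nat.add_sub_cancel]
  have hYb : (1 + 1 / q) * (∑ v, y v) / (q * b) ≤ 1 - ε / 2 := by
    have h3 : ∑ v, y v ≤ (1 - ε) * (q * (b + 1)) := by
      have h4 : r * ∑ v, y v ≤ r * ((1 - ε) * (q * (b + 1))) := by
        refine hY.trans ?_
        calc (1 - ε) * (n : ℝ) ≤ (1 - ε) * (r * q * (b + 1)) :=
              mul_le_mul_of_nonneg_left hnbR (by linarith)
          _ = _ := by ring
      exact le_of_mul_le_mul_left h4 (by linarith)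
    have h5 : 1 / (q : ℝ) ≤ ε / 8 := by
      rw [div_le_iff₀ hqR]
      have := (div_le_iff₀ hε).1 hq
      linarith
    have h6 : 1 / (b : ℝ) ≤ ε / 8 := by
      rw [div_le_iff₀ hbR]
      have h7 : 8 / ε ≤ b := by linarith
      have := (div_le_iff₀ hε).1 h7
      linarith
    have h9 : (1 + 1 / (q : ℝ)) * (∑ v, y v) / (q * b) ≤
        (1 + 1 / q) * ((1 + 1 / b) * (1 - ε)) := by
      rw [mul_div_assoc]
      refine mul_le_mul_of_nonneg_left ?_ (by positivity)
      rw [div_le_iff₀ (by positivity)]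
      refine h3.trans (le_of_eq ?_)
      field_simp
    refine h9.trans ?_
    have h10 : (1 + 1 / (q : ℝ)) * ((1 + 1 / b) * (1 - ε)) ≤
        (1 + ε / 8) * ((1 + ε / 8) * (1 - ε)) := by
      have a1 : 0 ≤ 1 - ε := by linarith
      have a2 : 0 ≤ 1 + 1 / (b : ℝ) := by positivity
      refine mul_le_mul (by linarith) (mul_le_mul_of_nonneg_right (by linarith) a1)
        (mul_nonneg a2 a1) (by linarith)
    nlinarith [mul_pos hε hε, mul_nonneg hε.le (sub_nonneg.2 hε1)]
  have hcount : (univ.filter (fun f : Fin r → Fin n =>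
      (∀ i : Fin r, (f i).val < ep r q s b (i.val + 1)) ∧ cst d f ≤ r * (r - 1))).card ≤
      (univ.filter (fun f : Fin r → Fin n => cst d f ≤ r * (r - 1) ∧
        ∑ j, y (f j) ≤ 1 - ε / 2)).card := by
    refine Finset.card_le_card ?_
    intro f hf
    rw [Finset.mem_filter] at hf ⊢
    refine ⟨hf.1, hf.2.2, ?_⟩
    refine le_trans ?_ (hle.trans hYb)
    rw [← hsum, Finset.sum_range]
    refine Finset.sum_le_sum fun i _ => ?_
    have h3 := hep i.val i.2
    rw [ext0_of_lt y h3]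
    exact hmon (hf.2.1 i).le
  have hc1 : (1 - ρ) / 2 ≤ 1 - E * n / (q * b * (r - 1)) := by
    have h3 : E * n / (q * b * (r - 1)) ≤ ρ * (1 + 1 / b) := by
      rw [hρ]
      calc E * n / (q * b * (r - 1)) ≤ E * (r * q * (b + 1)) / (q * b * (r - 1)) :=
            div_le_div_of_nonneg_right (mul_le_mul_of_nonneg_left hnbR hE0) (by positivity)
        _ = _ := by field_simp
    have h4 : ρ * (1 / b) ≤ (1 - ρ) / 2 := by
      have h5 : 1 / (b : ℝ) ≤ (1 - ρ) / 2 := by
        rw [div_le_iff₀ hbR]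
        have h7 : 2 / (1 - ρ) ≤ b := by linarith
        have := (div_le_iff₀ (by linarith : (0 : ℝ) < 1 - ρ)).1 h7
        linarith
      have h6 : 0 ≤ 1 / (b : ℝ) := by positivity
      nlinarith
    linarith [mul_add ρ 1 (1 / (b : ℝ))]
  have hbn : ((n : ℝ) / (2 * (r * q))) ^ r ≤ (b : ℝ) ^ r := by
    refine pow_le_pow_left₀ (by positivity) ?_ r
    rw [div_le_iff₀ (by positivity)]
    refine hnbR.trans ?_
    nlinarith
  calc (1 - ρ) / 2 / (2 * (r * q)) ^ r * (n : ℝ) ^ r
      = (1 - ρ) / 2 * ((n : ℝ) / (2 * (r * q))) ^ r := by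
        rw [div_pow]; field_simp
    _ ≤ (1 - ρ) / 2 * (b : ℝ) ^ r := mul_le_mul_of_nonneg_left hbn (by linarith)
    _ ≤ (1 - E * n / (q * b * (r - 1))) * (b : ℝ) ^ r :=
        mul_le_mul_of_nonneg_right hc1 (by positivity)
    _ ≤ _ := hfr
    _ ≤ _ := by exact_mod_cast hcount

/-- The robust fractional theorem. -/
theorem FR {r : ℕ} (hr : 2 ≤ r) {E ε : ℝ} (hE0 : 0 ≤ E) (hE : E * r < r - 1) (hε : 0 < ε)
    (hε1 : ε ≤ 1) : ∃ c : ℝ, 0 < c ∧ ∃ n0 : ℕ, ∀ (V : Type) [Fintype V], n0 ≤ Fintype.card V →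
      ∀ d : V → V → ℝ, Dfc d E → ∀ y : V → ℝ, (∀ v, 0 ≤ y v) →
      r * ∑ v, y v ≤ (1 - ε) * (Fintype.card V : ℝ) →
      c * (Fintype.card V : ℝ) ^ r ≤ ({f : Fin r → V | cst d f ≤ r * (r - 1) ∧
        ∑ j, y (f j) ≤ 1 - ε / 2}.ncard : ℝ) := by
  classical
  obtain ⟨c, hc, n0, h⟩ := FR1 hr hE0 hE hε hε1
  refine ⟨c, hc, n0, ?_⟩
  intro V _ hV d hd y hy0 hY
  set n := Fintype.card V with hn
  let e0 : V ≃ Fin n := Fintype.equivFin V
  let σ : Equiv.Perm (Fin n) := Tuple.sort (fun i => y (e0.symm i))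
  let F : Fin n ≃ V := σ.trans e0.symm
  have hmon : Monotone (fun i => y (F i)) := by
    have := Tuple.monotone_sort (fun i => y (e0.symm i))
    exact this
  have hd' : Dfc (fun i j => d (F i) (F j)) E := by
    refine ⟨fun u v => hd.symm _ _, fun u v => hd.nonneg _ _, fun v => hd.diag _, fun u => ?_⟩
    have h1 := hd.deg (F u)
    rw [Fintype.card_fin]
    refine le_trans (le_of_eq ?_) h1
    exact Equiv.sum_comp F (fun v => d (F u) v)
  have h2 := h n hV (fun i j => d (F i) (F j)) hd' (fun i => y (F i)) (fun v => hy0 _) hmon (by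
    rw [Equiv.sum_comp F y]; exact hY)
  refine h2.trans ?_
  rw [← Set.ncard_coe_finset]
  have h3 : (((univ.filter (fun f : Fin r → Fin n =>
      cst (fun i j => d (F i) (F j)) f ≤ r * (r - 1) ∧ ∑ j, y (F (f j)) ≤ 1 - ε / 2) :
        Finset (Fin r → Fin n)) : Set (Fin r → Fin n)).ncard : ℝ) ≤
      ({f : Fin r → V | cst d f ≤ r * (r - 1) ∧ ∑ j, y (f j) ≤ 1 - ε / 2}.ncard : ℝ) := by
    have h4 : ((univ.filter (fun f : Fin r → Fin n =>
      cst (fun i j => d (F i) (F j)) f ≤ r * (r - 1) ∧ ∑ j, y (F (f j)) ≤ 1 - ε / 2) :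
        Finset (Fin r → Fin n)) : Set (Fin r → Fin n)).ncard ≤
      {f : Fin r → V | cst d f ≤ r * (r - 1) ∧ ∑ j, y (f j) ≤ 1 - ε / 2}.ncard := by
      refine Set.ncard_le_ncard_of_injOn (fun f => fun i => F (f i)) ?_ ?_ (Set.toFinite _)
      · intro f hf
        simp only [Finset.coe_filter, Finset.mem_univ, true_and, Set.mem_setOf_eq] at hf
        exact hf
      · intro f _ g _ hfg
        funext i
        exact F.injective (congrFun hfg i)
    exact_mod_cast h4
  exact h3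

end Pool.Agent.Y361.WHS
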