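import Pool.Agent.Y361.WHS.Frac2
import Pool.Agent.TH482.Nib
import Pool.Agent.W365.CFS8

/-!
# Almost perfect tilings by good sets (LP duality and the nibble; adapted from
`Pool/Agent/W365/CFS8.lean`)
-/

set_option autoImplicit false
set_option maxHeartbeats 1000000

namespace Pool.Agent.Y361.WHS

open Finset
open Pool.Agent.W163.CF (S1)
open Pool.Agent.W365.CFS8 (card_noninj card_two card_le_of_det)

/-- the injective good tuples -/
abbrev JJ {V : Type} (k : ℕ) (P : (Fin k → V) → Prop) : Type :=
  {f : Fin k → V // Function.Injective f ∧ P f}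

/-- the linear programme: a fractional packing with small weights and large total weight -/
theorem frac (h1 : S1) {V : Type} [Fintype V] [DecidableEq V] [Nonempty V]
    (k : ℕ) (hk : 2 ≤ k) (P : (Fin k → V) → Prop) (c ε : ℝ) (hc : 0 < c) (hε : 0 < ε)
    (hε1 : ε ≤ 1) [Fintype (JJ k P)]
    (hn : 2 * (k : ℝ) ^ 2 / c ≤ Fintype.card V)
    (h7 : ∀ y : V → ℝ, (∀ v, 0 ≤ y v) → k * ∑ v, y v ≤ (1 - ε) * (Fintype.card V : ℝ) →
      c * (Fintype.card V : ℝ) ^ k ≤
        ({f : Fin k → V | P f ∧ ∑ j, y (f j) ≤ 1 - ε / 2}.ncard : ℝ)) :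
    ∃ w : JJ k P → ℝ, (∀ f, 0 ≤ w f) ∧
      (∀ v, ∑ f ∈ univ.filter (fun f : JJ k P => v ∈ univ.image f.1), w f ≤ 1) ∧
      (∀ f, w f ≤ 4 / (c * ε * k) / (Fintype.card V : ℝ) ^ (k - 1)) ∧
      (1 - ε) * (Fintype.card V : ℝ) / k ≤ ∑ f, w f := by
  classical
  set n : ℝ := (Fintype.card V : ℝ) with hn_def
  have hnpos : 0 < n := by
    rw [hn_def]
    exact_mod_cast Fintype.card_pos
  have hkpos : (0 : ℝ) < k := by
    have : 0 < k := by omega
    exact_mod_cast this
  set cap : ℝ := 4 / (c * ε * k) / n ^ (k - 1) with hcap_def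
  have hcap : 0 < cap := by
    rw [hcap_def]
    positivity
  obtain ⟨y, w, hy, hw, hj, hi, hyw⟩ := h1 (V ⊕ JJ k P) (JJ k P)
    (fun i f => Sum.elim (fun v => if v ∈ univ.image f.1 then (1 : ℝ) else 0)
      (fun g => if g = f then 1 / cap else 0) i)
    (by
      intro i f
      rcases i with v | g
      · simp only [Sum.elim_inl]
        split_ifs <;> norm_num
      · simp only [Sum.elim_inr]
        split_ifs
        · positivity
        · exact le_rfl)
    (by
      intro f
      refine ⟨Sum.inr f, ?_⟩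
      simp only [Sum.elim_inr, if_true]
      positivity)
  have hj' : ∀ f : JJ k P, 1 ≤ ∑ i, y (Sum.inl (f.1 i)) + y (Sum.inr f) / cap := by
    intro f
    have h := hj f
    rw [Fintype.sum_sum_type] at h
    simp only [Sum.elim_inl, Sum.elim_inr] at h
    have e1 : ∑ v : V, y (Sum.inl v) * (if v ∈ univ.image f.1 then (1 : ℝ) else 0) =
        ∑ i, y (Sum.inl (f.1 i)) := by
      rw [← Finset.sum_image (s := univ) (g := f.1) (f := fun v => y (Sum.inl v))
        (fun a _ b _ hab => f.2.1 hab)]
      rw [← Finset.sum_filter_add_sum_filter_not univ (fun v => v ∈ univ.image f.1)]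
      have e2 : ∑ v ∈ univ.filter (fun v => v ∉ univ.image f.1),
          y (Sum.inl v) * (if v ∈ univ.image f.1 then (1 : ℝ) else 0) = 0 := by
        refine Finset.sum_eq_zero ?_
        intro v hv
        rw [Finset.mem_filter] at hv
        rw [if_neg hv.2, mul_zero]
      have e3 : univ.filter (fun v => v ∈ univ.image f.1) = univ.image f.1 := by
        ext v
        simp
      rw [e2, add_zero, e3]
      refine Finset.sum_congr rfl ?_
      intro v hv
      rw [if_pos hv, mul_one]
    have e4 : ∑ g : JJ k P, y (Sum.inr g) * (if g = f then 1 / cap else 0) =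
        y (Sum.inr f) / cap := by
      rw [Finset.sum_eq_single f]
      · rw [if_pos rfl]
        ring
      · intro g _ hg
        rw [if_neg hg, mul_zero]
      · intro h
        exact absurd (Finset.mem_univ _) h
    rw [e1, e4] at h
    exact h
  refine ⟨w, hw, ?_, ?_, ?_⟩
  · intro v
    have h := hi (Sum.inl v)
    simp only [Sum.elim_inl] at h
    refine le_trans (le_of_eq ?_) h
    rw [Finset.sum_filter]
    refine Finset.sum_congr rfl ?_
    intro f _
    split_ifs <;> simp
  · intro f
    have h := hi (Sum.inr f)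
    simp only [Sum.elim_inr] at h
    rw [Finset.sum_eq_single f] at h
    · rw [if_pos rfl, mul_one_div, div_le_one hcap] at h
      exact h
    · intro g _ hg
      rw [if_neg (fun e => hg e.symm), mul_zero]
    · intro h
      exact absurd (Finset.mem_univ _) h
  · rw [← hyw, Fintype.sum_sum_type]
    have hz : 0 ≤ ∑ f : JJ k P, y (Sum.inr f) := Finset.sum_nonneg (fun f _ => hy _)
    have hv : 0 ≤ ∑ v : V, y (Sum.inl v) := Finset.sum_nonneg (fun f _ => hy _)
    by_cases hcase : k * ∑ v : V, y (Sum.inl v) ≤ (1 - ε) * n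
    · -- many light copies
      have h := h7 (fun v => y (Sum.inl v)) (fun v => hy _) hcase
      rw [Set.ncard_eq_toFinset_card'] at h
      set F : Finset (Fin k → V) := (univ : Finset (Fin k → V)).filter
        (fun f => P f ∧ ∑ j, y (Sum.inl (f j)) ≤ 1 - ε / 2) with hF
      have hF' : {f : Fin k → V | P f ∧ ∑ j, y (Sum.inl (f j)) ≤ 1 - ε / 2}.toFinset = F := by
        ext f
        simp [hF]
      rw [hF'] at h
      set G : Finset (JJ k P) := univ.filter
        (fun f => ∑ j, y (Sum.inl (f.1 j)) ≤ 1 - ε / 2) with hG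
      have hFG : F ⊆ G.image (fun f => f.1) ∪
          (univ : Finset (Fin k → V)).filter (fun f => ¬ Function.Injective f) := by
        intro f hf
        rw [hF, Finset.mem_filter] at hf
        rw [Finset.mem_union]
        by_cases hinj : Function.Injective f
        · left
          rw [Finset.mem_image]
          exact ⟨⟨f, hinj, hf.2.1⟩, Finset.mem_filter.2 ⟨Finset.mem_univ _, hf.2.2⟩, rfl⟩
        · right
          exact Finset.mem_filter.2 ⟨Finset.mem_univ _, hinj⟩
      have hcard : (F.card : ℝ) ≤ G.card + (k : ℝ) ^ 2 * n ^ (k - 1) := by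
        have h2 := (Finset.card_le_card hFG).trans (Finset.card_union_le _ _)
        have h3 := h2.trans (add_le_add Finset.card_image_le (card_noninj (V := V) k))
        rw [hn_def]
        exact_mod_cast h3
      have hnk : n ^ k = n * n ^ (k - 1) := by
        rw [← pow_succ']
        congr 1
        omega
      have hG1 : c / 2 * n ^ k ≤ G.card := by
        have h4 : (k : ℝ) ^ 2 * n ^ (k - 1) ≤ c / 2 * n ^ k := by
          rw [hnk]
          have h5 : (k : ℝ) ^ 2 ≤ c / 2 * n := by
            rw [div_le_iff₀ hc] at hn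
            linarith
          have h6 : 0 ≤ n ^ (k - 1) := by positivity
          nlinarith [mul_le_mul_of_nonneg_right h5 h6]
        linarith
      have hG2 : (G.card : ℝ) * (cap * ε / 2) ≤ ∑ f : JJ k P, y (Sum.inr f) := by
        have h8 : ∑ _f ∈ G, (cap * ε / 2) ≤ ∑ f ∈ G, y (Sum.inr f) := by
          refine Finset.sum_le_sum ?_
          intro f hf
          rw [hG, Finset.mem_filter] at hf
          have h9 := hj' f
          have h10 : ε / 2 ≤ y (Sum.inr f) / cap := by linarith [hf.2]
          rw [le_div_iff₀ hcap] at h10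
          linarith
        rw [Finset.sum_const, nsmul_eq_mul] at h8
        refine h8.trans ?_
        exact Finset.sum_le_sum_of_subset_of_nonneg (Finset.subset_univ _) (fun _ _ _ => hy _)
      have hG3 : n / k ≤ (G.card : ℝ) * (cap * ε / 2) := by
        have h11 : c / 2 * n ^ k * (cap * ε / 2) = n / k := by
          rw [hcap_def, hnk]
          field_simp
          ring
        rw [← h11]
        exact mul_le_mul_of_nonneg_right hG1 (by positivity)
      have h12 : (1 - ε) * n / k ≤ n / k := by
        apply div_le_div_of_nonneg_right _ hkpos.le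
        nlinarith
      linarith
    · push Not at hcase
      have h13 : (1 - ε) * n / k ≤ ∑ v : V, y (Sum.inl v) := by
        rw [div_le_iff₀ hkpos]
        linarith
      linarith

/-- the good sets -/
def GoodE {V : Type} (d : V → V → ℝ) (r : ℕ) (e : Finset V) : Prop :=
  e.card = r ∧ ∑ u ∈ e, ∑ v ∈ e, d u v ≤ r * (r - 1)

theorem good_image {V : Type} [DecidableEq V] {d : V → V → ℝ} {r : ℕ} {f : Fin r → V}
    (hf : Function.Injective f) (h : cst d f ≤ r * (r - 1)) : GoodE d r (univ.image f) := by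
  refine ⟨by rw [Finset.card_image_of_injective _ hf, Finset.card_univ, Fintype.card_fin], ?_⟩
  rw [Finset.sum_image (fun a _ b _ hab => hf hab)]
  have : ∀ i : Fin r, ∑ v ∈ univ.image f, d (f i) v = ∑ j, d (f i) (f j) := fun i =>
    Finset.sum_image (fun a _ b _ hab => hf hab)
  rw [Finset.sum_congr rfl fun i _ => this i]
  exact h

/-- almost perfect tilings by good sets -/
theorem tile {k : ℕ} (hk : 2 ≤ k) {E : ℝ} (hE0 : 0 ≤ E) (hE : E * k < k - 1) {θ : ℝ}
    (hθ : 0 < θ) : ∃ n0 : ℕ, ∀ (V : Type) [Fintype V] [DecidableEq V] (d : V → V → ℝ),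
      Dfc d E → n0 ≤ Fintype.card V →
      ∃ M : Finset (Finset V), (∀ e ∈ M, GoodE d k e) ∧
        (∀ e ∈ M, ∀ e' ∈ M, e ≠ e' → Disjoint e e') ∧
        (1 - θ) * (Fintype.card V : ℝ) ≤ ((M.biUnion id).card : ℝ) := by
  classical
  set θ' : ℝ := min θ 1 with hθ'
  have hθ'0 : 0 < θ' := lt_min hθ one_pos
  have hθ'1 : θ' ≤ 1 := min_le_right _ _
  have hθ'2 : θ' ≤ θ := min_le_left _ _
  obtain ⟨c, hc, n7, h7'⟩ := FR hk hE0 hE (show 0 < θ' / 2 by linarith) (by linarith)
  obtain ⟨κ, hκ, hnib⟩ := Pool.Agent.TH482.nibble_TT k (θ' / 2) (by linarith)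
  have hkpos : (0 : ℝ) < k := by
    have : 0 < k := by omega
    exact_mod_cast this
  set K : ℝ := 4 / (c * (θ' / 2) * k) with hK
  have hKpos : 0 < K := by rw [hK]; positivity
  obtain ⟨n0, hn0⟩ := exists_nat_ge (1 + 2 * (k : ℝ) ^ 2 / c + K * (k : ℝ) ^ 2 / κ)
  refine ⟨max n0 n7, ?_⟩
  intro V _ _ d hd hcardV'
  have hcardV : n0 ≤ Fintype.card V := (le_max_left _ _).trans hcardV'
  have hcardV7 : n7 ≤ Fintype.card V := (le_max_right _ _).trans hcardV'
  set P : (Fin k → V) → Prop := fun f => cst d f ≤ k * (k - 1) with hP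
  set n : ℝ := (Fintype.card V : ℝ) with hn_def
  have hnn : 1 + 2 * (k : ℝ) ^ 2 / c + K * (k : ℝ) ^ 2 / κ ≤ n := by
    refine hn0.trans ?_
    rw [hn_def]
    exact_mod_cast hcardV
  have p1 : 0 < 2 * (k : ℝ) ^ 2 / c := by positivity
  have p2 : 0 < K * (k : ℝ) ^ 2 / κ := by positivity
  have hn1 : 1 ≤ n := by linarith
  have hnpos : 0 < n := by linarith
  haveI : Nonempty V := by
    rw [← Fintype.card_pos_iff]
    have : (0 : ℝ) < (Fintype.card V : ℝ) := hnpos
    exact_mod_cast this
  obtain ⟨w, hw0, hwl, hwc, hws⟩ := frac Pool.Agent.W358.CF.t_S1 k hk P c (θ' / 2) hc (by linarith) (by linarith)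
    (by linarith) (h7' V hcardV7 d hd)
  have hKk : K * (k : ℝ) ^ 2 ≤ κ * n := by
    have : K * (k : ℝ) ^ 2 / κ ≤ n := by linarith
    rw [div_le_iff₀ hκ] at this
    linarith
  have hk1 : (1 : ℝ) ≤ (k : ℝ) ^ 2 := by
    have h2 : (2 : ℝ) ≤ k := by exact_mod_cast hk
    nlinarith
  have hwκ : ∀ f : JJ k P, w f ≤ κ := by
    intro f
    refine (hwc f).trans ?_
    rw [div_le_iff₀ (by positivity)]
    have h2 : n ≤ n ^ (k - 1) := by
      calc n = n ^ 1 := (pow_one n).symm
        _ ≤ n ^ (k - 1) := pow_le_pow_right₀ hn1 (by omega)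
    have h3 : K ≤ κ * n := by nlinarith
    have h4 : κ * n ≤ κ * n ^ (k - 1) := mul_le_mul_of_nonneg_left h2 hκ.le
    linarith
  obtain ⟨M, hM1, -, hM3⟩ := hnib (JJ k P) V (fun f => univ.image f.1) w hw0
    (by
      intro f
      exact ⟨f.1 ⟨0, by omega⟩, Finset.mem_image_of_mem _ (Finset.mem_univ _)⟩)
    (by
      intro f
      exact Finset.card_image_le.trans (by simp))
    hwl
    (by
      intro u v huv
      have hsub : ((univ.filter (fun f : JJ k P => u ∈ univ.image f.1 ∧ v ∈ univ.image f.1)).image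
          (fun f => f.1)) ⊆
          ((univ : Finset (Fin k → V)).filter (fun f => (∃ i, f i = u) ∧ ∃ j, f j = v)) := by
        intro f hf
        rw [Finset.mem_image] at hf
        obtain ⟨g, hg, rfl⟩ := hf
        rw [Finset.mem_filter] at hg ⊢
        simpa using hg.2
      have hcd : (univ.filter (fun f : JJ k P => u ∈ univ.image f.1 ∧ v ∈ univ.image f.1)).card ≤
          k ^ 2 * (Fintype.card V) ^ (k - 2) := by
        rw [← Finset.card_image_of_injective _ (Subtype.val_injective)]
        exact (Finset.card_le_card hsub).trans (card_two k u v huv)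
      refine (Finset.sum_le_sum (fun f _ => hwc f)).trans ?_
      rw [Finset.sum_const, nsmul_eq_mul]
      have h2 : ((univ.filter (fun f : JJ k P => u ∈ univ.image f.1 ∧ v ∈ univ.image f.1)).card : ℝ)
          ≤ (k : ℝ) ^ 2 * n ^ (k - 2) := by
        rw [hn_def]
        exact_mod_cast hcd
      have h3 : 0 ≤ K / n ^ (k - 1) := by positivity
      refine (mul_le_mul_of_nonneg_right h2 h3).trans ?_
      have h4 : n ^ (k - 1) = n * n ^ (k - 2) := by
        rw [← pow_succ']
        congr 1
        omega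
      have h5 : (k : ℝ) ^ 2 * n ^ (k - 2) * (K / n ^ (k - 1)) = K * (k : ℝ) ^ 2 / n := by
        rw [h4]
        field_simp
      rw [h5, div_le_iff₀ hnpos]
      exact hKk)
    hwκ
  refine ⟨M.image (fun f => univ.image f.1), ?_, ?_, ?_⟩
  · intro e he
    rw [Finset.mem_image] at he
    obtain ⟨f, _, rfl⟩ := he
    exact good_image f.2.1 f.2.2
  · intro e he e' he' hne
    rw [Finset.mem_image] at he he'
    obtain ⟨f, hf, rfl⟩ := he
    obtain ⟨g, hg, rfl⟩ := he'
    refine hM1 f hf g hg ?_
    rintro rfl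
    exact hne rfl
  · have e1 : (M.image (fun f => univ.image f.1)).biUnion id = M.biUnion (fun f => univ.image f.1) := by
      rw [Finset.image_biUnion]
      rfl
    have e2 : (M.biUnion (fun f => univ.image f.1)).card = M.card * k := by
      rw [Finset.card_biUnion (fun f hf g hg hfg => hM1 f hf g hg hfg)]
      have : ∀ f ∈ M, (univ.image f.1).card = k := by
        intro f _
        rw [Finset.card_image_of_injective _ f.2.1, Finset.card_univ, Fintype.card_fin]
      rw [Finset.sum_congr rfl this, Finset.sum_const, smul_eq_mul]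
    rw [e1, e2]
    push_cast
    have h2 : (1 - θ' / 2) * ((1 - θ' / 2) * n / k) ≤ (M.card : ℝ) :=
      (mul_le_mul_of_nonneg_left hws (by linarith)).trans hM3
    have h3 : (1 - θ' / 2) * ((1 - θ' / 2) * n / k) * k = (1 - θ' / 2) ^ 2 * n := by
      field_simp
    have h4 : (1 - θ' / 2) ^ 2 * n ≤ (M.card : ℝ) * k := by
      rw [← h3]
      exact mul_le_mul_of_nonneg_right h2 hkpos.le
    have h5 : (1 - θ) * n ≤ (1 - θ' / 2) ^ 2 * n := by
      apply mul_le_mul_of_nonneg_right _ hnpos.le
      nlinarith [sq_nonneg θ']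
    linarith

end Pool.Agent.Y361.WHS
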