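import Pool.Agent.Y361.WHS.Close2
import Pool.Agent.Y361.WHS.Tile
import Pool.Agent.W163.CF.P10
import Pool.Agent.W365.CFS11

/-!
# Common links, absorption and the factor theorem
-/

set_option autoImplicit false
set_option maxHeartbeats 1000000

namespace Pool.Agent.Y361.WHS

open Finset
open Pool.Agent.W365.CFS8 (card_noninj card_two card_le_of_det)
open Pool.Agent.FracEM.PMT

/-- every two vertices have many common cheap links -/
theorem CL {m : ℕ} (hm : 1 ≤ m) {E : ℝ} (hE : E * (m + 1) < m) :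
    ∃ c : ℝ, 0 < c ∧ ∀ (V : Type) [Fintype V] [Nonempty V] [DecidableEq V] (d : V → V → ℝ),
      Dfc d E → ∀ u v : V, c * (Fintype.card V : ℝ) ^ m ≤
        ((univ.filter (fun T : Fin m → V => cst d T + 2 * ∑ i, d u (T i) ≤ m * (m + 1) ∧
          cst d T + 2 * ∑ i, d v (T i) ≤ m * (m + 1))).card : ℝ) := by
  classical
  obtain ⟨B, hB, hexp⟩ := expected hm
  have hmR : (1 : ℝ) ≤ m := by exact_mod_cast hm
  set Δ : ℝ := (m : ℝ) / (m + 1) with hΔ
  have hΔ0 : 0 < Δ := by rw [hΔ]; positivity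
  have hEΔ : E < Δ := by rw [hΔ, lt_div_iff₀ (by positivity)]; exact hE
  set E' : ℝ := max E (Δ / 2) with hE'
  have hE'0 : 0 < E' := lt_of_lt_of_le (by linarith) (le_max_right _ _)
  have hE'1 : E' < Δ := max_lt hEΔ (by linarith)
  set l : ℝ := Δ / E' with hl
  have hl0 : 0 < l := div_pos hΔ0 hE'0
  have hlE : l * E' = Δ := by rw [hl]; field_simp
  have hl1 : 1 < l := by rw [hl, lt_div_iff₀ hE'0]; linarith
  have hE'E : E ≤ E' := le_max_left _ _
  refine ⟨(1 - 1 / l) / B ^ m, ?_, ?_⟩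
  · apply div_pos _ (by positivity)
    have : 1 / l < 1 := by rw [div_lt_one hl0]; exact hl1
    linarith
  intro V _ _ _ d hd u v
  have hN := cardpos (V := V)
  have hd' : Dfc (fun x y => l * d x y) Δ := by
    refine ⟨fun x y => by rw [hd.symm], fun x y => mul_nonneg hl0.le (hd.nonneg x y),
      fun x => by rw [hd.diag, mul_zero], fun x => ?_⟩
    rw [← Finset.mul_sum, ← hlE, mul_assoc]
    refine mul_le_mul_of_nonneg_left ((hd.deg x).trans ?_) hl0.le
    exact mul_le_mul_of_nonneg_right hE'E hN.le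
  have hav : ∀ x : V, av (fun y => l * d x y) ≤ Δ := by
    intro x
    unfold av
    rw [div_le_iff₀ hN]
    exact hd'.deg x
  obtain ⟨p, hp0, hpB, hp1, hsum⟩ := hexp V (fun x y => l * d x y) hd' (fun y => l * d u y)
    (fun y => l * d v y) (fun y => hd'.nonneg u y) (fun y => hd'.nonneg v y) (hav u) (hav v)
  set X : (Fin m → V) → ℝ := fun T => cst d T + 2 * max (∑ i, d u (T i)) (∑ i, d v (T i)) with hX
  have hXl : ∀ T : Fin m → V, cst (fun x y => l * d x y) T +
      2 * max (∑ i, l * d u (T i)) (∑ i, l * d v (T i)) = l * X T := by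
    intro T
    simp only [hX]
    unfold cst
    simp only [← Finset.mul_sum]
    rw [← mul_max_of_nonneg _ _ hl0.le]
    ring
  have hK : (0 : ℝ) < m * (m + 1) := by positivity
  have hE2 : ∑ T : Fin m → V, PWt (fun _ => p) T * X T ≤ m * (m + 1) / l := by
    rw [le_div_iff₀ hl0, Finset.sum_mul]
    refine le_trans (le_of_eq ?_) hsum
    refine Finset.sum_congr rfl fun T _ => ?_
    rw [hXl]
    ring
  have hX0 : ∀ T, 0 ≤ X T := by
    intro T
    simp only [hX]
    have h1 : 0 ≤ cst d T := Finset.sum_nonneg fun i _ => Finset.sum_nonneg fun j _ =>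
      hd.nonneg _ _
    have h2 : 0 ≤ ∑ i, d u (T i) := Finset.sum_nonneg fun i _ => hd.nonneg _ _
    have h3 := le_max_left (∑ i, d u (T i)) (∑ i, d v (T i))
    linarith
  have hmk := markov_card (PWt (fun _ : Fin m => p)) X (PWt_nonneg fun _ v => hp0 v) hX0
    (sum_total fun _ => hp1) hK hE2 (B := (B / Fintype.card V) ^ m) (by
      intro T
      unfold PWt
      calc ∏ i, p (T i) ≤ ∏ _i : Fin m, (B / (Fintype.card V : ℝ)) :=
            Finset.prod_le_prod (fun i _ => hp0 _) (fun i _ => hpB _)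
        _ = _ := by rw [Finset.prod_const, Finset.card_univ, Fintype.card_fin])
  have hle : (univ.filter (fun T : Fin m → V => PWt (fun _ => p) T ≠ 0 ∧
      X T ≤ m * (m + 1))).card ≤
      (univ.filter (fun T : Fin m → V => cst d T + 2 * ∑ i, d u (T i) ≤ m * (m + 1) ∧
          cst d T + 2 * ∑ i, d v (T i) ≤ m * (m + 1))).card := by
    refine Finset.card_le_card ?_
    intro T hT
    rw [Finset.mem_filter] at hT ⊢
    have h1 := le_max_left (∑ i, d u (T i)) (∑ i, d v (T i))
    have h2 := le_max_right (∑ i, d u (T i)) (∑ i, d v (T i))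
    have h3 := hT.2.2
    simp only [hX] at h3
    exact ⟨hT.1, by linarith, by linarith⟩
  have e1 : 1 - m * (m + 1) / l / (m * (m + 1)) = 1 - 1 / l := by
    field_simp
  rw [e1] at hmk
  have e2 : (B / (Fintype.card V : ℝ)) ^ m = B ^ m / (Fintype.card V : ℝ) ^ m := div_pow _ _ _
  rw [e2] at hmk
  have hNm : (0 : ℝ) < (Fintype.card V : ℝ) ^ m := by positivity
  have hBm : (0 : ℝ) < B ^ m := by positivity
  have h3 : (1 - 1 / l) / B ^ m * (Fintype.card V : ℝ) ^ m ≤
      ((univ.filter (fun T : Fin m → V => PWt (fun _ => p) T ≠ 0 ∧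
      X T ≤ m * (m + 1))).card : ℝ) := by
    rw [← mul_div_assoc, le_div_iff₀ hNm] at hmk
    rw [div_mul_eq_mul_div, div_le_iff₀ hBm]
    exact hmk
  exact h3.trans (by exact_mod_cast hle)

open Classical in
/-- the hypergraph of the good sets -/
noncomputable def HG {n : ℕ} (d : Fin n → Fin n → ℝ) (r : ℕ) : Finset (Finset (Fin n)) :=
  univ.filter (fun e => GoodE d r e)

theorem mem_HG {n : ℕ} {d : Fin n → Fin n → ℝ} {r : ℕ} {e : Finset (Fin n)} :
    e ∈ HG d r ↔ GoodE d r e := by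
  classical
  simp [HG]

theorem HG_card {n : ℕ} {d : Fin n → Fin n → ℝ} {r : ℕ} : ∀ e ∈ HG d r, e.card = r :=
  fun _ he => (mem_HG.1 he).1

/-- there are many good tuples -/
theorem count_edges {r : ℕ} (hr : 2 ≤ r) {E : ℝ} (hE0 : 0 ≤ E) (hE : E * r < r - 1) :
    ∃ c : ℝ, 0 < c ∧ ∃ n0 : ℕ, ∀ n : ℕ, n0 ≤ n → ∀ d : Fin n → Fin n → ℝ, Dfc d E →
      c * (n : ℝ) ^ r ≤
        (((univ : Finset (Fin r → Fin n)).filter (fun u => univ.image u ∈ HG d r)).card : ℝ) := by
  classical
  obtain ⟨c, hc, n1, h1⟩ := FR hr hE0 hE one_pos le_rfl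
  obtain ⟨n2, hn2⟩ := exists_nat_ge (2 * (r : ℝ) ^ 2 / c)
  refine ⟨c / 2, by linarith, max (max n1 n2) 1, ?_⟩
  intro n hn d hd
  have hn1 : n1 ≤ n := (le_max_left _ _).trans ((le_max_left _ _).trans hn)
  have hn2' : n2 ≤ n := (le_max_right _ _).trans ((le_max_left _ _).trans hn)
  have hn3 : 1 ≤ n := (le_max_right _ _).trans hn
  have hnR : 2 * (r : ℝ) ^ 2 / c ≤ n := hn2.trans (by exact_mod_cast hn2')
  have h2 := h1 (Fin n) (by rw [Fintype.card_fin]; exact hn1) d hd (fun _ => 0)
    (fun _ => le_rfl) (by simp)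
  rw [Fintype.card_fin] at h2
  have h3 : ({f : Fin r → Fin n | cst d f ≤ r * (r - 1) ∧ ∑ _j : Fin r, (0 : ℝ) ≤ 1 - 1 / 2}.ncard
      : ℝ) ≤ (((univ : Finset (Fin r → Fin n)).filter
        (fun u => univ.image u ∈ HG d r)).card : ℝ) + (r : ℝ) ^ 2 * (n : ℝ) ^ (r - 1) := by
    have h4 : {f : Fin r → Fin n | cst d f ≤ r * (r - 1) ∧ ∑ _j : Fin r, (0 : ℝ) ≤ 1 - 1 / 2} ⊆
        (((univ : Finset (Fin r → Fin n)).filter (fun u => univ.image u ∈ HG d r) ∪
          (univ : Finset (Fin r → Fin n)).filter (fun f => ¬ Function.Injective f) :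
          Finset (Fin r → Fin n)) : Set (Fin r → Fin n)) := by
      intro f hf
      rw [Finset.mem_coe, Finset.mem_union, Finset.mem_filter, Finset.mem_filter]
      by_cases hinj : Function.Injective f
      · left
        exact ⟨mem_univ _, mem_HG.2 (good_image hinj hf.1)⟩
      · right
        exact ⟨mem_univ _, hinj⟩
    have h5 := Set.ncard_le_ncard h4 (Set.toFinite _)
    rw [Set.ncard_coe_finset] at h5
    have h6 := h5.trans ((Finset.card_union_le _ _).trans
      (Nat.add_le_add_left (card_noninj (V := Fin n) r) _))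
    rw [Fintype.card_fin] at h6
    exact_mod_cast h6
  have h7 : (r : ℝ) ^ 2 * (n : ℝ) ^ (r - 1) ≤ c / 2 * (n : ℝ) ^ r := by
    have e : (n : ℝ) ^ r = n * (n : ℝ) ^ (r - 1) := by
      rw [← pow_succ']
      congr 1
      omega
    rw [e]
    have h8 : (r : ℝ) ^ 2 ≤ c / 2 * n := by
      rw [div_le_iff₀ hc] at hnR
      linarith
    have h9 : (0 : ℝ) ≤ (n : ℝ) ^ (r - 1) := by positivity
    nlinarith [mul_le_mul_of_nonneg_right h8 h9]
  linarith

/-- cost of a tuple with one more vertex -/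
theorem good_insert {n m : ℕ} {d : Fin n → Fin n → ℝ} {E : ℝ} (hd : Dfc d E) {T : Fin m → Fin n}
    (hT : Function.Injective T) {x : Fin n} (hx : ∀ i, T i ≠ x)
    (h : cst d T + 2 * ∑ i, d x (T i) ≤ m * (m + 1)) :
    GoodE d (m + 1) (insert x (univ.image T)) := by
  classical
  have hnot : x ∉ univ.image T := by
    rw [Finset.mem_image]
    rintro ⟨i, _, hi⟩
    exact hx i hi
  refine ⟨?_, ?_⟩
  · rw [Finset.card_insert_of_notMem hnot, Finset.card_image_of_injective _ hT, Finset.card_univ,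
      Fintype.card_fin]
  · rw [Finset.sum_insert hnot]
    simp only [Finset.sum_insert hnot]
    rw [hd.diag, zero_add, Finset.sum_add_distrib]
    have e0 : ∀ φ : Fin n → ℝ, ∑ v ∈ univ.image T, φ v = ∑ i, φ (T i) := fun φ =>
      Finset.sum_image (fun a _ b _ hab => hT hab)
    rw [e0, e0, e0]
    have e1 : ∑ i, d (T i) x = ∑ i, d x (T i) := Finset.sum_congr rfl fun i _ => hd.symm _ _
    have e2 : ∑ i, ∑ v ∈ univ.image T, d (T i) v = cst d T :=
      Finset.sum_congr rfl fun i _ => e0 _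
    rw [e1, e2]
    push_cast
    have e3 : ((m : ℝ) + 1) * (m + 1 - 1) = m * (m + 1) := by ring
    rw [e3]
    linarith

theorem count_links {m : ℕ} (hm : 1 ≤ m) {E : ℝ} (hE : E * (m + 1) < m) :
    ∃ c : ℝ, 0 < c ∧ ∃ n0 : ℕ, ∀ n : ℕ, n0 ≤ n → ∀ d : Fin n → Fin n → ℝ, Dfc d E →
      ∀ x x' : Fin n, c * ((n.choose m : ℕ) : ℝ) ≤
        ((((univ : Finset (Fin n)).powersetCard m).filter
          (fun S => insert x S ∈ HG d (m + 1) ∧ insert x' S ∈ HG d (m + 1))).card : ℝ) := by
  classical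
  obtain ⟨c, hc, h1⟩ := CL hm hE
  obtain ⟨n2, hn2⟩ := exists_nat_ge (2 * ((m : ℝ) ^ 2 + 2 * m) / c)
  refine ⟨c / 2 / (m : ℝ) ^ m, by positivity, max n2 1, ?_⟩
  intro n hn d hd x x'
  have hn2' : n2 ≤ n := (le_max_left _ _).trans hn
  have hn3 : 1 ≤ n := (le_max_right _ _).trans hn
  haveI : Nonempty (Fin n) := ⟨⟨0, hn3⟩⟩
  have hnR : 2 * ((m : ℝ) ^ 2 + 2 * m) / c ≤ n := hn2.trans (by exact_mod_cast hn2')
  have h2 := h1 (Fin n) d hd x x'
  rw [Fintype.card_fin] at h2
  set A : Finset (Fin m → Fin n) := univ.filter (fun T : Fin m → Fin n =>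
    cst d T + 2 * ∑ i, d x (T i) ≤ m * (m + 1) ∧
    cst d T + 2 * ∑ i, d x' (T i) ≤ m * (m + 1)) with hA
  set G : Finset (Fin m → Fin n) := A.filter (fun T => Function.Injective T ∧ (∀ i, T i ≠ x) ∧
    ∀ i, T i ≠ x') with hG
  -- functions hitting a vertex
  have hhit : ∀ z : Fin n, ((univ : Finset (Fin m → Fin n)).filter (fun T => ∃ i, T i = z)).card ≤
      m * n ^ (m - 1) := by
    intro z
    have hsub : (univ : Finset (Fin m → Fin n)).filter (fun T => ∃ i, T i = z) ⊆
        (univ : Finset (Fin m)).biUnion (fun i =>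
          (univ : Finset (Fin m → Fin n)).filter (fun T => T i = z)) := by
      intro T hT
      rw [Finset.mem_filter] at hT
      obtain ⟨_, i, hi⟩ := hT
      rw [Finset.mem_biUnion]
      exact ⟨i, mem_univ _, Finset.mem_filter.2 ⟨mem_univ _, hi⟩⟩
    refine (Finset.card_le_card hsub).trans (Finset.card_biUnion_le.trans ?_)
    have hb : ∀ i ∈ (univ : Finset (Fin m)),
        ((univ : Finset (Fin m → Fin n)).filter (fun T => T i = z)).card ≤ n ^ (m - 1) := by
      intro i _
      have := card_le_of_det ((univ : Finset (Fin m → Fin n)).filter (fun T => T i = z)) {i} (by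
        intro f hf g hg h
        rw [Finset.mem_filter] at hf hg
        funext t
        by_cases ht : t = i
        · rw [ht, hf.2, hg.2]
        · exact h t (by simpa using ht))
      rwa [Finset.card_singleton, Fintype.card_fin] at this
    refine (Finset.sum_le_sum hb).trans ?_
    rw [Finset.sum_const, Finset.card_univ, Fintype.card_fin, smul_eq_mul]
  have hAG : A.card ≤ G.card + (m ^ 2 * n ^ (m - 1) + (m * n ^ (m - 1) + m * n ^ (m - 1))) := by
    have hsub : A ⊆ G ∪ ((univ : Finset (Fin m → Fin n)).filter (fun f => ¬ Function.Injective f) ∪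
        ((univ : Finset (Fin m → Fin n)).filter (fun T => ∃ i, T i = x) ∪
          (univ : Finset (Fin m → Fin n)).filter (fun T => ∃ i, T i = x'))) := by
      intro T hT
      simp only [Finset.mem_union, Finset.mem_filter, Finset.mem_univ, true_and, hG]
      by_cases h3 : Function.Injective T
      · by_cases h4 : ∃ i, T i = x
        · exact Or.inr (Or.inr (Or.inl h4))
        · by_cases h5 : ∃ i, T i = x'
          · exact Or.inr (Or.inr (Or.inr h5))
          · push Not at h4 h5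
            exact Or.inl ⟨hT, h3, h4, h5⟩
      · exact Or.inr (Or.inl h3)
    refine (Finset.card_le_card hsub).trans ((Finset.card_union_le _ _).trans ?_)
    refine Nat.add_le_add_left ((Finset.card_union_le _ _).trans ?_) _
    refine Nat.add_le_add ?_ ((Finset.card_union_le _ _).trans (Nat.add_le_add (hhit x) (hhit x')))
    have := card_noninj (V := Fin n) m
    rwa [Fintype.card_fin] at this
  have hGc : c / 2 * (n : ℝ) ^ m ≤ G.card := by
    have h3 : (A.card : ℝ) ≤ G.card + ((m : ℝ) ^ 2 + 2 * m) * (n : ℝ) ^ (m - 1) := by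
      have : (A.card : ℝ) ≤ G.card + ((m : ℝ) ^ 2 * (n : ℝ) ^ (m - 1) +
          (m * (n : ℝ) ^ (m - 1) + m * (n : ℝ) ^ (m - 1))) := by exact_mod_cast hAG
      linarith
    have e : (n : ℝ) ^ m = n * (n : ℝ) ^ (m - 1) := by
      rw [← pow_succ']
      congr 1
      omega
    have h7 : ((m : ℝ) ^ 2 + 2 * m) * (n : ℝ) ^ (m - 1) ≤ c / 2 * (n : ℝ) ^ m := by
      rw [e]
      have h8 : (m : ℝ) ^ 2 + 2 * m ≤ c / 2 * n := by
        rw [div_le_iff₀ hc] at hnR
        linarith
      have h9 : (0 : ℝ) ≤ (n : ℝ) ^ (m - 1) := by positivity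
      nlinarith [mul_le_mul_of_nonneg_right h8 h9]
    linarith
  set S : Finset (Finset (Fin n)) := ((univ : Finset (Fin n)).powersetCard m).filter
    (fun S => insert x S ∈ HG d (m + 1) ∧ insert x' S ∈ HG d (m + 1)) with hS
  have hmap : ∀ T ∈ G, univ.image T ∈ S := by
    intro T hT
    rw [hG, Finset.mem_filter, hA, Finset.mem_filter] at hT
    obtain ⟨⟨_, hc1, hc2⟩, hinj, hx, hx'⟩ := hT
    rw [hS, Finset.mem_filter, Finset.mem_powersetCard]
    refine ⟨⟨Finset.subset_univ _, ?_⟩, mem_HG.2 (good_insert hd hinj hx hc1),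
      mem_HG.2 (good_insert hd hinj hx' hc2)⟩
    rw [Finset.card_image_of_injective _ hinj, Finset.card_univ, Fintype.card_fin]
  have hfib : G.card ≤ m ^ m * S.card := by
    refine Finset.card_le_mul_card_image_of_maps_to hmap (m ^ m) ?_
    intro s hs
    rw [hS, Finset.mem_filter, Finset.mem_powersetCard] at hs
    have hsub : (G.filter (fun T => univ.image T = s)) ⊆ Fintype.piFinset (fun _ : Fin m => s) := by
      intro T hT
      rw [Finset.mem_filter] at hT
      rw [Fintype.mem_piFinset]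
      intro i
      rw [← hT.2]
      exact Finset.mem_image_of_mem _ (mem_univ _)
    refine (Finset.card_le_card hsub).trans ?_
    rw [Fintype.card_piFinset, Finset.prod_const, Finset.card_univ, Fintype.card_fin, hs.1.2]
  have hch : ((n.choose m : ℕ) : ℝ) ≤ (n : ℝ) ^ m := by
    exact_mod_cast Nat.choose_le_pow n m
  have hmm : (0 : ℝ) < (m : ℝ) ^ m := by
    have : (0 : ℝ) < m := by exact_mod_cast hm
    positivity
  have hfibR : (G.card : ℝ) ≤ (m : ℝ) ^ m * S.card := by exact_mod_cast hfib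
  calc c / 2 / (m : ℝ) ^ m * ((n.choose m : ℕ) : ℝ) ≤ c / 2 / (m : ℝ) ^ m * (n : ℝ) ^ m :=
        mul_le_mul_of_nonneg_left hch (by positivity)
    _ = (c / 2 * (n : ℝ) ^ m) / (m : ℝ) ^ m := by ring
    _ ≤ ((m : ℝ) ^ m * S.card) / (m : ℝ) ^ m :=
        div_le_div_of_nonneg_right (hGc.trans hfibR) hmm.le
    _ = S.card := by field_simp

end Pool.Agent.Y361.WHS
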