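import Mathlib

/-!
# Product weights on tuples: one and two coordinate expectations, Markov
-/

set_option autoImplicit false

namespace Pool.Agent.Y361.WHS

open Finset

section Prob
variable {V : Type} [Fintype V] [DecidableEq V] {ι : Type} [Fintype ι] [DecidableEq ι]

/-- product weight of a tuple -/
noncomputable def PWt (p : ι → V → ℝ) (f : ι → V) : ℝ := ∏ i, p i (f i)

theorem PWt_nonneg {p : ι → V → ℝ} (hp : ∀ i v, 0 ≤ p i v) (f : ι → V) : 0 ≤ PWt p f :=
  Finset.prod_nonneg fun i _ => hp i _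

theorem PWt_sum (p : ι → V → ℝ) : ∑ f : ι → V, PWt p f = ∏ i, ∑ v, p i v := by
  unfold PWt
  rw [Finset.prod_univ_sum, Fintype.piFinset_univ]

theorem PWt_mul (p φ : ι → V → ℝ) :
    ∑ f : ι → V, PWt p f * ∏ i, φ i (f i) = ∏ i, ∑ v, p i v * φ i v := by
  rw [← PWt_sum (fun i v => p i v * φ i v)]
  refine Finset.sum_congr rfl fun f _ => ?_
  unfold PWt
  rw [← Finset.prod_mul_distrib]

theorem sum_total {p : ι → V → ℝ} (hp : ∀ i, ∑ v, p i v = 1) : ∑ f : ι → V, PWt p f = 1 := by
  rw [PWt_sum]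
  exact Finset.prod_eq_one fun i _ => hp i

theorem sum_one {p : ι → V → ℝ} (hp : ∀ i, ∑ v, p i v = 1) (i0 : ι) (g : V → ℝ) :
    ∑ f : ι → V, PWt p f * g (f i0) = ∑ v, p i0 v * g v := by
  have h := PWt_mul p (fun i v => if i = i0 then g v else 1)
  have e1 : ∀ f : ι → V, ∏ i, (if i = i0 then g (f i) else 1) = g (f i0) := by
    intro f
    rw [Finset.prod_ite_eq' univ i0 (fun i => g (f i)), if_pos (mem_univ _)]
  simp only [e1] at h
  rw [h]
  rw [Finset.prod_eq_single i0]
  · simp
  · intro i _ hi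
    simp only [if_neg hi, mul_one]
    exact hp i
  · intro h
    exact absurd (mem_univ _) h

theorem sum_two {p : ι → V → ℝ} (hp : ∀ i, ∑ v, p i v = 1) {i0 j0 : ι} (hij : i0 ≠ j0)
    (g : V → V → ℝ) :
    ∑ f : ι → V, PWt p f * g (f i0) (f j0) = ∑ u, ∑ v, p i0 u * p j0 v * g u v := by
  have h : ∀ a : V, ∑ f : ι → V, PWt p f * ((if f i0 = a then 1 else 0) * g a (f j0)) =
      ∑ v, p i0 a * p j0 v * g a v := by
    intro a
    have h := PWt_mul p (fun i v => if i = i0 then (if v = a then 1 else 0) else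
      if i = j0 then g a v else 1)
    have e1 : ∀ f : ι → V, ∏ i, (if i = i0 then (if f i = a then (1 : ℝ) else 0) else
        if i = j0 then g a (f i) else 1) = (if f i0 = a then 1 else 0) * g a (f j0) := by
      intro f
      have e2 : ∀ i, (if i = i0 then (if f i = a then (1 : ℝ) else 0) else
        if i = j0 then g a (f i) else 1) = (if i = i0 then (if f i = a then (1 : ℝ) else 0) else 1) *
          (if i = j0 then g a (f i) else 1) := by
        intro i
        by_cases hi : i = i0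
        · subst hi
          rw [if_pos rfl, if_pos rfl, if_neg hij, mul_one]
        · rw [if_neg hi, if_neg hi, one_mul]
      simp only [e2]
      rw [Finset.prod_mul_distrib, Finset.prod_ite_eq' univ i0, Finset.prod_ite_eq' univ j0,
        if_pos (mem_univ _), if_pos (mem_univ _)]
    simp only [e1] at h
    rw [h, ← Finset.mul_prod_erase univ _ (mem_univ i0)]
    rw [← Finset.mul_prod_erase (univ.erase i0) _ (Finset.mem_erase.2 ⟨hij.symm, mem_univ j0⟩)]
    rw [Finset.prod_eq_one (s := (univ.erase i0).erase j0)]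
    · simp only [if_true, if_neg hij.symm, mul_one]
      have e3 : ∑ v, p i0 v * (if v = a then (1 : ℝ) else 0) = p i0 a := by
        simp
      rw [e3, Finset.mul_sum]
      refine Finset.sum_congr rfl fun v _ => ?_
      ring
    · intro i hi
      rw [Finset.mem_erase, Finset.mem_erase] at hi
      simp only [if_neg hi.1, if_neg hi.2.1, mul_one]
      exact hp i
  calc ∑ f : ι → V, PWt p f * g (f i0) (f j0)
      = ∑ f : ι → V, ∑ a, PWt p f * ((if f i0 = a then 1 else 0) * g a (f j0)) := by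
        refine Finset.sum_congr rfl fun f _ => ?_
        rw [← Finset.mul_sum]
        congr 1
        simp
    _ = ∑ a, ∑ f : ι → V, PWt p f * ((if f i0 = a then 1 else 0) * g a (f j0)) :=
        Finset.sum_comm
    _ = _ := Finset.sum_congr rfl fun a _ => h a

/-- Markov -/
theorem markov (W X : (ι → V) → ℝ) (hW : ∀ f, 0 ≤ W f) (hX : ∀ f, 0 ≤ X f)
    (h1 : ∑ f, W f = 1) {K' K : ℝ} (hK : 0 < K) (hE : ∑ f, W f * X f ≤ K') :
    1 - K' / K ≤ ∑ f ∈ univ.filter (fun f => X f ≤ K), W f := by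
  have h2 : ∑ f ∈ univ.filter (fun f => ¬ X f ≤ K), W f ≤ K' / K := by
    rw [le_div_iff₀ hK, Finset.sum_mul]
    calc ∑ f ∈ univ.filter (fun f => ¬ X f ≤ K), W f * K
        ≤ ∑ f ∈ univ.filter (fun f => ¬ X f ≤ K), W f * X f := by
          refine Finset.sum_le_sum fun f hf => ?_
          rw [Finset.mem_filter, not_le] at hf
          exact mul_le_mul_of_nonneg_left hf.2.le (hW f)
      _ ≤ ∑ f, W f * X f := Finset.sum_le_sum_of_subset_of_nonneg (Finset.subset_univ _)
          (fun f _ _ => mul_nonneg (hW f) (hX f))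
      _ ≤ K' := hE
  have h3 := Finset.sum_filter_add_sum_filter_not univ (fun f => X f ≤ K) W
  linarith

/-- Markov, counting form -/
theorem markov_card (W X : (ι → V) → ℝ) (hW : ∀ f, 0 ≤ W f) (hX : ∀ f, 0 ≤ X f)
    (h1 : ∑ f, W f = 1) {K' K B : ℝ} (hK : 0 < K) (hE : ∑ f, W f * X f ≤ K')
    (hB : ∀ f, W f ≤ B) :
    1 - K' / K ≤ ((univ.filter (fun f => W f ≠ 0 ∧ X f ≤ K)).card : ℝ) * B := by
  refine (markov W X hW hX h1 hK hE).trans ?_
  have e : ∑ f ∈ univ.filter (fun f => X f ≤ K), W f =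
      ∑ f ∈ univ.filter (fun f => W f ≠ 0 ∧ X f ≤ K), W f := by
    symm
    refine Finset.sum_subset ?_ ?_
    · intro f hf
      rw [Finset.mem_filter] at hf ⊢
      exact ⟨hf.1, hf.2.2⟩
    · intro f hf hf2
      rw [Finset.mem_filter] at hf hf2
      by_contra h
      exact hf2 ⟨mem_univ _, h, hf.2⟩
  rw [e, ← nsmul_eq_mul, ← Finset.sum_const]
  exact Finset.sum_le_sum fun f _ => hB f

/-- expectation of an ordered pair sum -/
theorem sum_pairs {p : ι → V → ℝ} (hp : ∀ i, ∑ v, p i v = 1) (g : V → V → ℝ)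
    (hg : ∀ v, g v v = 0) :
    ∑ f : ι → V, PWt p f * ∑ i, ∑ j, g (f i) (f j) =
      ∑ i, ∑ j, if i = j then 0 else ∑ u, ∑ v, p i u * p j v * g u v := by
  have e : ∀ f : ι → V, PWt p f * ∑ i, ∑ j, g (f i) (f j) =
      ∑ i, ∑ j, PWt p f * g (f i) (f j) := by
    intro f
    rw [Finset.mul_sum]
    refine Finset.sum_congr rfl fun i _ => ?_
    rw [Finset.mul_sum]
  simp only [e]
  rw [Finset.sum_comm]
  refine Finset.sum_congr rfl fun i _ => ?_
  rw [Finset.sum_comm]
  refine Finset.sum_congr rfl fun j _ => ?_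
  by_cases hij : i = j
  · subst hij
    rw [if_pos rfl]
    refine Finset.sum_eq_zero fun f _ => ?_
    rw [hg, mul_zero]
  · rw [if_neg hij]
    exact sum_two hp hij g

end Prob

end Pool.Agent.Y361.WHS
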